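import Mathlib

set_option autoImplicit false

open scoped ENNReal InnerProductSpace

namespace Pool.Agent.Helper76_Hankel

variable {H K : Type*} [NormedAddCommGroup H] [InnerProductSpace ℂ H] [CompleteSpace H]
  [NormedAddCommGroup K] [InnerProductSpace ℂ K] [CompleteSpace K]

/-- Parseval in extended nonnegative reals. -/
theorem parseval_ennreal {ι : Type*} (b : HilbertBasis ι ℂ H) (x : H) :
    ENNReal.ofReal (‖x‖ ^ 2) = ∑' i, ENNReal.ofReal (‖⟪b i, x⟫_ℂ‖ ^ 2) := by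
  have h1 := b.hasSum_inner_mul_inner x x
  have h2 : HasSum (fun i => ‖⟪b i, x⟫_ℂ‖ ^ 2) (‖x‖ ^ 2) := by
    have h3 := (Complex.hasSum_re h1)
    have h4 : (fun i => (⟪x, b i⟫_ℂ * ⟪b i, x⟫_ℂ).re) = fun i => ‖⟪b i, x⟫_ℂ‖ ^ 2 := by
      funext i
      rw [← inner_conj_symm x (b i), Complex.conj_mul']
      norm_cast
    rw [h4] at h3
    have h5 : (⟪x, x⟫_ℂ).re = ‖x‖ ^ 2 := by
      rw [inner_self_eq_norm_sq_to_K]
      norm_cast
    rwa [h5] at h3
  rw [← h2.tsum_eq, ENNReal.ofReal_tsum_of_nonneg (fun i => by positivity) h2.summable]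

/-- The Hilbert-Schmidt sum over an orthonormal family is at most the one over a Hilbert basis. -/
theorem sum_norm_sq_le_of_orthonormal {ι : Type*} (b : HilbertBasis ι ℂ H) (T : H →L[ℂ] K)
    (hT : Summable (fun i => ‖T (b i)‖ ^ 2)) {ι' : Type*} {v : ι' → H} (hv : Orthonormal ℂ v)
    (s : Finset ι') :
    ∑ j ∈ s, ‖T (v j)‖ ^ 2 ≤ ∑' i, ‖T (b i)‖ ^ 2 := by
  obtain ⟨w, c, -⟩ := exists_hilbertBasis ℂ K
  have key : ∑ j ∈ s, ENNReal.ofReal (‖T (v j)‖ ^ 2) ≤ ∑' i, ENNReal.ofReal (‖T (b i)‖ ^ 2) := by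
    calc ∑ j ∈ s, ENNReal.ofReal (‖T (v j)‖ ^ 2)
        = ∑ j ∈ s, ∑' l, ENNReal.ofReal (‖⟪c l, T (v j)⟫_ℂ‖ ^ 2) := by
          refine Finset.sum_congr rfl fun j _ => parseval_ennreal c _
      _ = ∑' l, ∑ j ∈ s, ENNReal.ofReal (‖⟪c l, T (v j)⟫_ℂ‖ ^ 2) := by
          rw [Summable.tsum_finsetSum (fun _ _ => ENNReal.summable)]
      _ ≤ ∑' l, ENNReal.ofReal (‖(ContinuousLinearMap.adjoint T) (c l)‖ ^ 2) := by
          refine ENNReal.tsum_le_tsum fun l => ?_
          rw [← ENNReal.ofReal_sum_of_nonneg (fun _ _ => by positivity)]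
          refine ENNReal.ofReal_le_ofReal ?_
          have h1 := hv.sum_inner_products_le (s := s) ((ContinuousLinearMap.adjoint T) (c l))
          refine le_trans (le_of_eq ?_) h1
          refine Finset.sum_congr rfl fun j _ => ?_
          rw [ContinuousLinearMap.adjoint_inner_right, ← norm_inner_symm]
      _ = ∑' l, ∑' i, ENNReal.ofReal (‖⟪b i, (ContinuousLinearMap.adjoint T) (c l)⟫_ℂ‖ ^ 2) := by
          refine tsum_congr fun l => parseval_ennreal b _
      _ = ∑' i, ∑' l, ENNReal.ofReal (‖⟪b i, (ContinuousLinearMap.adjoint T) (c l)⟫_ℂ‖ ^ 2) :=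
          ENNReal.tsum_comm
      _ = ∑' i, ∑' l, ENNReal.ofReal (‖⟪c l, T (b i)⟫_ℂ‖ ^ 2) := by
          refine tsum_congr fun i => tsum_congr fun l => ?_
          rw [ContinuousLinearMap.adjoint_inner_right, ← norm_inner_symm]
      _ = ∑' i, ENNReal.ofReal (‖T (b i)‖ ^ 2) := by
          refine tsum_congr fun i => (parseval_ennreal c _).symm
  rw [← ENNReal.ofReal_sum_of_nonneg (fun _ _ => by positivity),
    ← ENNReal.ofReal_tsum_of_nonneg (fun i => by positivity) hT] at key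
  exact (ENNReal.ofReal_le_ofReal_iff (tsum_nonneg fun i => by positivity)).1 key

end Pool.Agent.Helper76_Hankel
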