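import Pool.Agent.Helper76_Hankel.Torus

set_option autoImplicit false

open MeasureTheory Set Filter Topology Metric UnitAddTorus
open scoped ENNReal NNReal ComplexConjugate

namespace Pool.Agent.Helper76_Hankel

noncomputable section

/-- Normalised Haar measure on `ℝ / ℤ`. -/
local instance instMeasureSpaceUAC' : MeasureSpace UnitAddCircle := ⟨AddCircle.haarAddCircle⟩

local instance instHaarUAC' : Measure.IsAddHaarMeasure (volume : Measure UnitAddCircle) :=
  inferInstanceAs (Measure.IsAddHaarMeasure AddCircle.haarAddCircle)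

local instance instProbUAC' : IsProbabilityMeasure (volume : Measure UnitAddCircle) :=
  inferInstanceAs (IsProbabilityMeasure AddCircle.haarAddCircle)

variable {n : ℕ}

theorem dense_all_ne_zero : Dense {z : Fin n → ℂ | ∀ j, z j ≠ 0} := by
  have h : Dense (Set.pi (univ : Set (Fin n)) (fun _ => ({0}ᶜ : Set ℂ))) :=
    dense_pi _ (fun i _ => dense_compl_singleton (0 : ℂ))
  convert h using 1
  ext z; simp

/-- The rotation curve in coordinate `j`. -/
theorem rot_single (j : Fin n) (s : ℝ) (z : Fin n → ℂ) :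
    rot (Pi.single j (s : UnitAddCircle)) z =
      Function.update z j (Complex.exp (2 * Real.pi * s * Complex.I) * z j) := by
  funext i
  by_cases h : i = j
  · subst h
    simp only [rot, Pi.single_eq_same, Function.update_self]
    congr 1
    rw [AddCircle.toCircle_apply_mk, Circle.coe_exp]
    congr 1
    push_cast
    ring
  · simp [rot, h]

theorem fderiv_eq_zero_of_rot_invariant {q : (Fin n → ℂ) → ℂ} {z : Fin n → ℂ}
    (hz : ∀ j, z j ≠ 0) (hq : DifferentiableAt ℂ q z)
    (hinv : ∀ t : UnitAddTorus (Fin n), q (rot t z) = q z) : fderiv ℂ q z = 0 := by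
  have key : ∀ j : Fin n, fderiv ℂ q z (Pi.single j 1) = 0 := by
    intro j
    -- complex curve
    have hcurve : HasDerivAt (fun s : ℝ => Function.update z j
        (Complex.exp (2 * Real.pi * s * Complex.I) * z j))
        (Pi.single j (2 * Real.pi * Complex.I * z j)) 0 := by
      rw [hasDerivAt_pi]
      intro i
      by_cases h : i = j
      · subst h
        simp only [Function.update_self, Pi.single_eq_same]
        have h1 : HasDerivAt (fun s : ℝ => (2 * Real.pi * (s : ℂ) * Complex.I))
            (2 * Real.pi * Complex.I) 0 := by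
          have h0 : HasDerivAt (fun s : ℝ => (s : ℂ)) 1 0 := Complex.ofRealCLM.hasDerivAt
          have := (h0.const_mul (2 * Real.pi : ℂ)).mul_const Complex.I
          simpa using this
        have h2 := h1.cexp
        have h3 := h2.mul_const (z i)
        simpa using h3
      · have h' : ∀ s : ℝ, Function.update z j
            (Complex.exp (2 * Real.pi * s * Complex.I) * z j) i = z i := by
          intro s; simp [h]
        simp_rw [h']
        have : (Pi.single j (2 * Real.pi * Complex.I * z j) : Fin n → ℂ) i = 0 := by simp [h]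
        rw [this]
        exact hasDerivAt_const _ _
    have hq' : HasFDerivAt q (fderiv ℂ q z) (Function.update z j
        (Complex.exp (2 * Real.pi * (0 : ℝ) * Complex.I) * z j)) := by
      have : Function.update z j (Complex.exp (2 * Real.pi * (0 : ℝ) * Complex.I) * z j) = z := by
        simp
      rw [this]
      exact hq.hasFDerivAt
    have hcomp := (hq'.restrictScalars ℝ).comp_hasDerivAt (0 : ℝ) hcurve
    have hconst : (q ∘ fun s : ℝ => Function.update z j
        (Complex.exp (2 * Real.pi * s * Complex.I) * z j)) = fun _ => q z := by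
      funext s
      simp only [Function.comp_apply]
      rw [← rot_single, hinv]
    rw [hconst] at hcomp
    have h0 := hcomp.unique (hasDerivAt_const (0 : ℝ) (q z))
    have h1 : (Pi.single j (2 * Real.pi * Complex.I * z j) : Fin n → ℂ) =
        (2 * Real.pi * Complex.I * z j) • (Pi.single j 1 : Fin n → ℂ) := by
      rw [← Pi.single_smul]; simp
    rw [h1] at h0
    simp only [ContinuousLinearMap.coe_restrictScalars', map_smul, smul_eq_mul, mul_eq_zero] at h0
    rcases h0 with h0 | h0
    · exfalso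
      have hpi : (Real.pi : ℂ) ≠ 0 := by exact_mod_cast Real.pi_ne_zero
      rcases h0 with h0 | h0
      · simp [hpi] at h0
      · exact hz j h0
    · exact h0
  apply ContinuousLinearMap.coe_injective
  apply LinearMap.pi_ext'
  intro j
  ext
  simpa using key j

/-- Weight spaces of holomorphic functions are at most one-dimensional. -/
theorem exists_const_of_hasWeight {Ω : Set (Fin n → ℂ)} (hΩ : IsOpen Ω) (hc : IsPreconnected Ω)
    {γ : Fin n → ℤ} {g₁ g₂ : (Fin n → ℂ) → ℂ}
    (hd₁ : DifferentiableOn ℂ g₁ Ω) (hd₂ : DifferentiableOn ℂ g₂ Ω)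
    (hw₁ : HasWeight Ω γ g₁) (hw₂ : HasWeight Ω γ g₂)
    (hne : ∃ z ∈ Ω, g₂ z ≠ 0) : ∃ c : ℂ, ∀ z ∈ Ω, g₁ z = c * g₂ z := by
  obtain ⟨z₁, hz₁, hgz₁⟩ := hne
  -- a good base point
  have hopen : IsOpen (Ω ∩ g₂ ⁻¹' {0}ᶜ) :=
    hd₂.continuousOn.isOpen_inter_preimage hΩ isOpen_compl_singleton
  obtain ⟨z₀, ⟨hz₀Ω, hz₀g⟩, hz₀⟩ := dense_all_ne_zero.inter_open_nonempty _ hopen ⟨z₁, hz₁, hgz₁⟩
  have hopen2 : IsOpen {z : Fin n → ℂ | ∀ j, z j ≠ 0} := by
    have : {z : Fin n → ℂ | ∀ j, z j ≠ 0} =
        Set.pi (univ : Set (Fin n)) (fun _ => ({0}ᶜ : Set ℂ)) := by ext z; simp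
    rw [this]
    exact isOpen_set_pi finite_univ (fun _ _ => isOpen_compl_singleton)
  obtain ⟨r, hr, hball⟩ := Metric.isOpen_iff.1 (hopen.inter hopen2) z₀ ⟨⟨hz₀Ω, hz₀g⟩, hz₀⟩
  set q : (Fin n → ℂ) → ℂ := fun z => g₁ z / g₂ z with hq
  have hqd : ∀ z ∈ ball z₀ r, DifferentiableAt ℂ q z := by
    intro z hz
    have hz' := hball hz
    have h1 := (hd₁.differentiableAt (hΩ.mem_nhds hz'.1.1)).fun_mul
      ((hd₂.differentiableAt (hΩ.mem_nhds hz'.1.1)).fun_inv hz'.1.2)
    simpa only [hq, div_eq_mul_inv] using h1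
  have hqf : ∀ z ∈ ball z₀ r, fderiv ℂ q z = 0 := by
    intro z hz
    have hz' := hball hz
    refine fderiv_eq_zero_of_rot_invariant hz'.2 (hqd z hz) ?_
    intro t
    simp only [hq]
    rw [hw₁ z hz'.1.1 t, hw₂ z hz'.1.1 t]
    have : mFourier γ t ≠ 0 := by
      intro h
      have := norm_mFourier_apply γ t
      rw [h] at this; simp at this
    rw [mul_div_mul_left _ _ this]
  have hqc : ∀ z ∈ ball z₀ r, q z = q z₀ := by
    intro z hz
    exact (isOpen_ball.is_const_of_fderiv_eq_zero (𝕜 := ℂ) (convex_ball z₀ r).isPreconnected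
      (fun z hz => (hqd z hz).differentiableWithinAt) (fun z hz => hqf z hz) hz
      (mem_ball_self hr))
  refine ⟨q z₀, fun z hz => ?_⟩
  have hid := eqOn_zero_of_eventually hΩ hc (g := fun z => g₁ z - q z₀ * g₂ z)
    (hd₁.sub ((differentiableOn_const _).mul hd₂)) hz₀Ω (by
      filter_upwards [ball_mem_nhds z₀ hr] with w hw
      have hw' := hball hw
      have h1 := hqc w hw
      simp only [hq] at h1 ⊢
      have h2 : g₂ w ≠ 0 := hw'.1.2
      have h3 : g₁ w = (g₁ z₀ / g₂ z₀) * g₂ w := by
        rw [← h1]; field_simp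
      simp [h3]) z hz
  exact sub_eq_zero.1 hid

/-- If all nonzero weight parts vanish then the function is torus invariant. -/
theorem hasWeight_zero_of_wpart_eq_zero {Ω : Set (Fin n → ℂ)} (hI : Inv Ω)
    {f : (Fin n → ℂ) → ℂ} (hf : ContinuousOn f Ω)
    (h : ∀ β : Fin n → ℤ, β ≠ 0 → ∀ z ∈ Ω, wpart β f z = 0) : HasWeight Ω 0 f := by
  intro z hz t
  set φ : C(UnitAddTorus (Fin n), ℂ) := ⟨fun t => f (rot t z), continuous_orbit hI hf hz⟩ with hφ
  have hcoef : ∀ β : Fin n → ℤ, mFourierCoeff φ β = wpart β f z := by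
    intro β
    rfl
  have hzero : ∀ β : Fin n → ℤ, β ≠ 0 → mFourierCoeff φ β = 0 := fun β hβ => by
    rw [hcoef, h β hβ z hz]
  have hsummable : Summable (mFourierCoeff φ) :=
    summable_of_ne_finset_zero (s := {0}) (fun β hβ => hzero β (by simpa using hβ))
  have hval : ∀ x, φ x = mFourierCoeff φ 0 := by
    intro x
    have h1 := hasSum_mFourier_series_apply_of_summable hsummable x
    have h2 : HasSum (fun i => mFourierCoeff φ i • mFourier i x) (mFourierCoeff φ 0 • mFourier 0 x) :=
      hasSum_single 0 (fun β hβ => by rw [hzero β hβ, zero_smul])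
    have h3 := h1.unique h2
    simpa [mFourier_zero] using h3
  have h1 := hval t
  have h2 := hval 0
  simp only [hφ, ContinuousMap.coe_mk, rot_zero] at h1 h2
  rw [h1, mFourier_zero]
  simp [h2]

end

end Pool.Agent.Helper76_Hankel
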