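import Pool.Agent.Helper76_Hankel.Defs
import Pool.Agent.Helper76_Hankel.Weights
import Pool.Agent.Helper76_Hankel.HS

set_option autoImplicit false

open MeasureTheory Set Filter Topology Metric TopologicalSpace
open scoped ENNReal NNReal ComplexConjugate InnerProductSpace

namespace Pool.Agent.Helper76_Hankel

noncomputable section

variable {n : ℕ}

/-- Lebesgue measure on `Ω`. -/
abbrev mu (Ω : Opens (Fin n → ℂ)) : Measure (Fin n → ℂ) :=
  volume.restrict (Ω : Set (Fin n → ℂ))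

variable {Ω : Opens (Fin n → ℂ)}

theorem inner_toLp {u v : (Fin n → ℂ) → ℂ} (hu : MemLp u 2 (mu Ω)) (hv : MemLp v 2 (mu Ω)) :
    ⟪hu.toLp u, hv.toLp v⟫_ℂ = ∫ z in (Ω : Set (Fin n → ℂ)), v z * conj (u z) := by
  rw [L2.inner_def]
  refine integral_congr_ae ?_
  filter_upwards [hu.coeFn_toLp, hv.coeFn_toLp] with z h1 h2
  rw [h1, h2, RCLike.inner_apply]

theorem norm_toLp_sq {u : (Fin n → ℂ) → ℂ} (hu : MemLp u 2 (mu Ω)) :
    ‖hu.toLp u‖ ^ 2 = ∫ z in (Ω : Set (Fin n → ℂ)), ‖u z‖ ^ 2 := by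
  have h1 : ((‖hu.toLp u‖ ^ 2 : ℝ) : ℂ) = ⟪hu.toLp u, hu.toLp u⟫_ℂ := by
    rw [inner_self_eq_norm_sq_to_K]; norm_cast
  have h2 : ((∫ z in (Ω : Set (Fin n → ℂ)), ‖u z‖ ^ 2 : ℝ) : ℂ) =
      ∫ z in (Ω : Set (Fin n → ℂ)), u z * conj (u z) := by
    rw [← integral_complex_ofReal]
    refine integral_congr_ae (ae_of_all _ fun z => ?_)
    simp only [Complex.mul_conj']
    norm_cast
  have h3 := h1.trans ((inner_toLp hu hu).trans h2.symm)
  exact_mod_cast h3

theorem integrable_mul_conj {u v : (Fin n → ℂ) → ℂ} (hu : MemLp u 2 (mu Ω))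
    (hv : MemLp v 2 (mu Ω)) : Integrable (fun z => u z * conj (v z)) (mu Ω) := by
  have h := L2.integrable_inner (𝕜 := ℂ) (hv.toLp v) (hu.toLp u)
  refine h.congr ?_
  filter_upwards [hu.coeFn_toLp, hv.coeFn_toLp] with z h1 h2
  rw [h1, h2, RCLike.inner_apply]

theorem integrable_norm_sq {u : (Fin n → ℂ) → ℂ} (hu : MemLp u 2 (mu Ω)) :
    Integrable (fun z => ‖u z‖ ^ 2) (mu Ω) :=
  (memLp_two_iff_integrable_sq_norm hu.aestronglyMeasurable).1 hu

/-- A continuous function which is somewhere nonzero on an open set has positive `L²` norm. -/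
theorem integral_norm_sq_pos {u : (Fin n → ℂ) → ℂ} (hu : MemLp u 2 (mu Ω))
    {U : Set (Fin n → ℂ)} (hU : IsOpen U) (hUΩ : U ⊆ Ω) (hc : ContinuousOn u U)
    {z : Fin n → ℂ} (hz : z ∈ U) (hne : u z ≠ 0) : 0 < ∫ z in U, ‖u z‖ ^ 2 := by
  have hint : IntegrableOn (fun z => ‖u z‖ ^ 2) U := (integrable_norm_sq hu).mono_measure
    (Measure.restrict_mono hUΩ le_rfl)
  rw [setIntegral_pos_iff_support_of_nonneg_ae (ae_of_all _ fun z => by positivity) hint]
  have hopen : IsOpen (U ∩ u ⁻¹' {0}ᶜ) := hc.isOpen_inter_preimage hU isOpen_compl_singleton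
  refine lt_of_lt_of_le (hopen.measure_pos volume ⟨z, hz, hne⟩) (measure_mono ?_)
  rintro w ⟨hw1, hw2⟩
  refine ⟨?_, hw1⟩
  simp only [Function.mem_support]
  have : u w ≠ 0 := hw2
  positivity

theorem inv_of_isReinhardt {Ω : Set (Fin n → ℂ)} (h : IsReinhardt Ω) : Inv Ω := by
  intro t z hz
  have hr : ∀ j : Fin n, ∃ s : ℝ, (s : UnitAddCircle) = t j := fun j =>
    QuotientAddGroup.mk_surjective (t j)
  choose s hs using hr
  have h1 := h z hz (fun j => 2 * Real.pi * s j)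
  convert h1 using 1
  funext j
  simp only [rot]
  congr 1
  rw [← hs j, AddCircle.toCircle_apply_mk, Circle.coe_exp]
  simp

/-! ### The weight functions -/

/-- `e` is a holomorphic function on `Ω` of weight `γ` with `L²(Ω)`-norm one. -/
structure WFun (Ω : Opens (Fin n → ℂ)) (γ : Fin n → ℤ) (e : (Fin n → ℂ) → ℂ) : Prop where
  diff : DifferentiableOn ℂ e Ω
  weight : HasWeight (Ω : Set (Fin n → ℂ)) γ e
  memLp : MemLp e 2 (mu Ω)
  norm_one : ∫ z in (Ω : Set (Fin n → ℂ)), ‖e z‖ ^ 2 = 1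

theorem WFun.exists_ne {γ : Fin n → ℤ} {e : (Fin n → ℂ) → ℂ} (h : WFun Ω γ e) :
    ∃ z ∈ Ω, e z ≠ 0 := by
  by_contra hcon
  push Not at hcon
  have : ∫ z in (Ω : Set (Fin n → ℂ)), ‖e z‖ ^ 2 = 0 := by
    rw [setIntegral_congr_fun (g := fun _ => (0 : ℝ)) Ω.isOpen.measurableSet
      (fun z hz => by simp [hcon z hz])]
    simp
  rw [h.norm_one] at this
  exact one_ne_zero this

theorem WFun.exists_const (hc : IsPreconnected (Ω : Set (Fin n → ℂ))) {γ : Fin n → ℤ}
    {e : (Fin n → ℂ) → ℂ} (h : WFun Ω γ e) {g : (Fin n → ℂ) → ℂ} (hg : DifferentiableOn ℂ g Ω)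
    (hw : HasWeight (Ω : Set (Fin n → ℂ)) γ g) : ∃ c : ℂ, ∀ z ∈ Ω, g z = c * e z :=
  exists_const_of_hasWeight Ω.isOpen hc hg h.diff hw h.weight h.exists_ne

/-- Normalising. -/
theorem exists_wFun {γ : Fin n → ℤ} {u : (Fin n → ℂ) → ℂ} (hd : DifferentiableOn ℂ u Ω)
    (hw : HasWeight (Ω : Set (Fin n → ℂ)) γ u) (hL : MemLp u 2 (mu Ω))
    (hne : ∃ z ∈ Ω, u z ≠ 0) : ∃ e, WFun Ω γ e := by
  obtain ⟨z, hz, hzne⟩ := hne
  have hpos := integral_norm_sq_pos hL Ω.isOpen Subset.rfl hd.continuousOn hz hzne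
  set N : ℝ := ∫ z in (Ω : Set (Fin n → ℂ)), ‖u z‖ ^ 2 with hN
  refine ⟨fun z => ((Real.sqrt N)⁻¹ : ℝ) * u z, ?_, ?_, ?_, ?_⟩
  · exact (differentiableOn_const _).mul hd
  · intro z hz t
    show ((Real.sqrt N)⁻¹ : ℝ) * u (rot t z) = _ * (((Real.sqrt N)⁻¹ : ℝ) * u z)
    rw [hw z hz t]; ring
  · exact hL.const_mul _
  · have : ∀ z : Fin n → ℂ, ‖(((Real.sqrt N)⁻¹ : ℝ) : ℂ) * u z‖ ^ 2 = N⁻¹ * ‖u z‖ ^ 2 := by
      intro z
      rw [norm_mul, mul_pow, Complex.norm_real, Real.norm_eq_abs, sq_abs, inv_pow,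
        Real.sq_sqrt hpos.le]
    simp_rw [this]
    rw [integral_const_mul, ← hN, inv_mul_cancel₀ hpos.ne']

theorem mFourier_injective : Function.Injective
    (UnitAddTorus.mFourier : (Fin n → ℤ) → C(UnitAddTorus (Fin n), ℂ)) := by
  intro a b hab
  have h := (UnitAddTorus.orthonormal_mFourier (d := Fin n)).linearIndependent.injective
  apply h
  simp only [UnitAddTorus.mFourierLp, hab]

theorem orthogonal_of_weight {γ γ' : Fin n → ℤ} (hne : γ ≠ γ') (hI : Inv (Ω : Set (Fin n → ℂ)))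
    {u v : (Fin n → ℂ) → ℂ} (hu : HasWeight (Ω : Set (Fin n → ℂ)) γ u)
    (hv : HasWeight (Ω : Set (Fin n → ℂ)) γ' v) (huL : MemLp u 2 (mu Ω)) (hvL : MemLp v 2 (mu Ω)) :
    ∫ z in (Ω : Set (Fin n → ℂ)), u z * conj (v z) = 0 := by
  have hne' : UnitAddTorus.mFourier γ ≠ UnitAddTorus.mFourier γ' := fun h =>
    hne (mFourier_injective h)
  obtain ⟨t, ht⟩ : ∃ t, UnitAddTorus.mFourier γ t ≠ UnitAddTorus.mFourier γ' t := by
    by_contra hcon
    push Not at hcon
    exact hne' (ContinuousMap.ext hcon)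
  have hmp := hI.measurePreserving Ω.isOpen.measurableSet t
  have h1 : ∫ z in (Ω : Set (Fin n → ℂ)), u z * conj (v z) =
      ∫ z in (Ω : Set (Fin n → ℂ)), u (rot t z) * conj (v (rot t z)) := by
    conv_lhs => rw [← hmp.map_eq]
    rw [integral_map hmp.measurable.aemeasurable]
    rw [hmp.map_eq]
    exact (integrable_mul_conj huL hvL).aestronglyMeasurable
  have h2 : ∫ z in (Ω : Set (Fin n → ℂ)), u (rot t z) * conj (v (rot t z)) =
      (UnitAddTorus.mFourier γ t * conj (UnitAddTorus.mFourier γ' t)) *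
      ∫ z in (Ω : Set (Fin n → ℂ)), u z * conj (v z) := by
    rw [← integral_const_mul]
    refine setIntegral_congr_fun Ω.isOpen.measurableSet fun z hz => ?_
    rw [hu z hz t, hv z hz t, map_mul]; ring
  rw [h2] at h1
  by_contra hI0
  have h3 : UnitAddTorus.mFourier γ t * conj (UnitAddTorus.mFourier γ' t) = 1 := by
    have := mul_right_cancel₀ hI0 (h1.symm.trans (one_mul _).symm)
    exact this
  apply ht
  have h4 : conj (UnitAddTorus.mFourier γ' t) * UnitAddTorus.mFourier γ' t = 1 := by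
    rw [Complex.conj_mul', norm_mFourier_apply]; simp
  calc UnitAddTorus.mFourier γ t = UnitAddTorus.mFourier γ t *
        (conj (UnitAddTorus.mFourier γ' t) * UnitAddTorus.mFourier γ' t) := by rw [h4, mul_one]
    _ = (UnitAddTorus.mFourier γ t * conj (UnitAddTorus.mFourier γ' t)) *
        UnitAddTorus.mFourier γ' t := by ring
    _ = UnitAddTorus.mFourier γ' t := by rw [h3, one_mul]

/-- A weight function as an element of the Bergman space. -/
def WFun.toBergman {γ : Fin n → ℤ} {e : (Fin n → ℂ) → ℂ} (h : WFun Ω γ e) : bergman Ω :=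
  ⟨h.memLp.toLp e, e, h.diff, h.memLp.coeFn_toLp⟩

theorem WFun.norm_toBergman {γ : Fin n → ℤ} {e : (Fin n → ℂ) → ℂ} (h : WFun Ω γ e) :
    ‖h.toBergman‖ = 1 := by
  have h1 : ‖h.toBergman‖ ^ 2 = 1 := by
    show ‖h.memLp.toLp e‖ ^ 2 = 1
    rw [norm_toLp_sq, h.norm_one]
  have h2 : 0 ≤ ‖h.toBergman‖ := norm_nonneg _
  nlinarith

/-! ### Properties of Hilbert-Schmidt Hankel extensions -/

variable {f : (Fin n → ℂ) → ℂ} {T : bergman Ω →L[ℂ] L2 Ω}

/-- `\bar f g - T g` is holomorphic for every `g ∈ A²`. -/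
theorem IsHilbertSchmidtHankel.exists_rep (hT : IsHilbertSchmidtHankel Ω f T)
    (hf : DifferentiableOn ℂ f Ω) (g : bergman Ω) :
    ∃ G : (Fin n → ℂ) → ℂ, DifferentiableOn ℂ G Ω ∧
      (fun z => conj (f z) * (g : L2 Ω) z - (T g : L2 Ω) z) =ᵐ[mu Ω] G := by
  obtain ⟨x, hx, hxg⟩ := mem_closure_iff_seq_limit.1 (hT.dense_domain g)
  have hmem : ∀ k, bergmanProj Ω (MemLp.toLp (fun z => conj (f z) * (x k : L2 Ω) z) (hx k)) ∈
      bergman Ω := fun k => Submodule.starProjection_apply_mem _ _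
  choose F hF hFe using hmem
  have hFe' : ∀ k, (fun z => conj (f z) * (x k : L2 Ω) z - (T (x k) : L2 Ω) z) =ᵐ[mu Ω] F k := by
    intro k
    have h1 := hT.extends_hankel (x k) (hx k)
    unfold hankel at h1
    have h2 : (T (x k) : L2 Ω) =ᵐ[mu Ω]
        (MemLp.toLp (fun z => conj (f z) * (x k : L2 Ω) z) (hx k) : L2 Ω) -
        (bergmanProj Ω (MemLp.toLp (fun z => conj (f z) * (x k : L2 Ω) z) (hx k)) : L2 Ω) := by
      rw [h1]; exact Lp.coeFn_sub _ _
    filter_upwards [h2, hFe k, MemLp.coeFn_toLp (hx k)] with z h3 h4 h5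
    rw [h3, Pi.sub_apply, h5, ← h4]
    ring
  have hfc : ContinuousOn f Ω := hf.continuousOn
  have hcf : AEStronglyMeasurable (fun z => conj (f z)) (mu Ω) :=
    (Complex.continuous_conj.comp_continuousOn hfc).aestronglyMeasurable Ω.isOpen.measurableSet
  set u : (Fin n → ℂ) → ℂ := fun z => conj (f z) * (g : L2 Ω) z - (T g : L2 Ω) z with hu
  have hum : AEStronglyMeasurable u (mu Ω) :=
    (hcf.mul (Lp.aestronglyMeasurable _)).sub (Lp.aestronglyMeasurable _)
  obtain ⟨G, hG, huG⟩ := exists_holomorphic_of_L2loc Ω.isOpen hF hum (fun z hz => by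
    obtain ⟨r, hr, hsub⟩ := Metric.isOpen_iff.1 Ω.isOpen z hz
    have hr2 : 0 < r / 2 := by positivity
    have hcb : closedBall z (r / 2) ⊆ Ω := (closedBall_subset_ball (by linarith)).trans hsub
    have hbΩ : ball z (r / 2) ⊆ Ω := ball_subset_closedBall.trans hcb
    refine ⟨r / 2, hr2, hbΩ, ?_⟩
    obtain ⟨M, hM⟩ := (isCompact_closedBall z (r / 2)).exists_bound_of_continuousOn
      (hfc.mono hcb)
    have hM0 : 0 ≤ M := (norm_nonneg _).trans (hM z (mem_closedBall_self hr2.le))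
    -- the two pieces
    have hA : ∀ k, eLpNorm (fun w => F k w - u w) 2 (volume.restrict (ball z (r / 2))) ≤
        ENNReal.ofReal M * ‖(x k : L2 Ω) - (g : L2 Ω)‖ₑ + ‖T (x k) - T g‖ₑ := by
      intro k
      have h1 : (fun w => F k w - u w) =ᵐ[volume.restrict (ball z (r / 2))]
          (fun w => conj (f w) * ((x k : L2 Ω) w - (g : L2 Ω) w)) -
          (fun w => (T (x k) : L2 Ω) w - (T g : L2 Ω) w) := by
        have := ae_mono (Measure.restrict_mono hbΩ le_rfl) (hFe' k)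
        filter_upwards [this] with w hw
        simp only [hu, Pi.sub_apply]
        rw [← hw]; ring
      rw [eLpNorm_congr_ae h1]
      have hm1 : AEStronglyMeasurable (fun w => conj (f w) * ((x k : L2 Ω) w - (g : L2 Ω) w))
          (volume.restrict (ball z (r / 2))) :=
        (hcf.mul ((Lp.aestronglyMeasurable _).sub (Lp.aestronglyMeasurable _))).mono_measure
          (Measure.restrict_mono hbΩ le_rfl)
      have hm2 : AEStronglyMeasurable (fun w => (T (x k) : L2 Ω) w - (T g : L2 Ω) w)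
          (volume.restrict (ball z (r / 2))) :=
        ((Lp.aestronglyMeasurable _).sub (Lp.aestronglyMeasurable _)).mono_measure
          (Measure.restrict_mono hbΩ le_rfl)
      refine (eLpNorm_sub_le hm1 hm2 (by norm_num)).trans (add_le_add ?_ ?_)
      · have h2 : eLpNorm (fun w => conj (f w) * ((x k : L2 Ω) w - (g : L2 Ω) w)) 2
            (volume.restrict (ball z (r / 2))) ≤
            ENNReal.ofReal M * eLpNorm (fun w => (x k : L2 Ω) w - (g : L2 Ω) w) 2
            (volume.restrict (ball z (r / 2))) := by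
          refine eLpNorm_le_mul_eLpNorm_of_ae_le_mul ?_ 2
          filter_upwards [ae_restrict_mem measurableSet_ball] with w hw
          rw [norm_mul]
          refine mul_le_mul_of_nonneg_right ?_ (norm_nonneg _)
          rw [RCLike.norm_conj]
          exact hM w (ball_subset_closedBall hw)
        refine h2.trans (mul_le_mul_right ?_ _)
        refine (eLpNorm_mono_measure _ (Measure.restrict_mono hbΩ le_rfl)).trans (le_of_eq ?_)
        rw [Lp.enorm_def]
        refine eLpNorm_congr_ae ?_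
        exact (Lp.coeFn_sub _ _).symm
      · refine (eLpNorm_mono_measure _ (Measure.restrict_mono hbΩ le_rfl)).trans (le_of_eq ?_)
        rw [Lp.enorm_def]
        refine eLpNorm_congr_ae ?_
        exact (Lp.coeFn_sub _ _).symm
    refine tendsto_of_tendsto_of_tendsto_of_le_of_le tendsto_const_nhds ?_
      (fun k => zero_le) hA
    have ht1 : Tendsto (fun k => ‖(x k : L2 Ω) - (g : L2 Ω)‖ₑ) atTop (𝓝 0) := by
      have h1 : Tendsto (fun k => (x k : L2 Ω)) atTop (𝓝 (g : L2 Ω)) :=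
        (continuous_subtype_val.tendsto g).comp hxg
      have h2 := tendsto_iff_edist_tendsto_0.1 h1
      simpa only [edist_eq_enorm_sub] using h2
    have ht2 : Tendsto (fun k => ‖T (x k) - T g‖ₑ) atTop (𝓝 0) := by
      have h1 : Tendsto (fun k => T (x k)) atTop (𝓝 (T g)) := (T.continuous.tendsto g).comp hxg
      have h2 := tendsto_iff_edist_tendsto_0.1 h1
      simpa only [edist_eq_enorm_sub] using h2
    have := (ENNReal.Tendsto.const_mul ht1 (Or.inr (ENNReal.ofReal_ne_top (r := M)))).add ht2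
    simpa using this)
  exact ⟨G, hG, huG⟩

/-- The range of `T` is orthogonal to `A²`. -/
theorem IsHilbertSchmidtHankel.inner_eq_zero (hT : IsHilbertSchmidtHankel Ω f T)
    (g k : bergman Ω) : ⟪(k : L2 Ω), T g⟫_ℂ = 0 := by
  have hclosed : IsClosed {g : bergman Ω | ⟪(k : L2 Ω), T g⟫_ℂ = 0} :=
    isClosed_eq (continuous_const.inner T.continuous) continuous_const
  have hsub : closure (hankelDomain Ω f) ⊆ {g : bergman Ω | ⟪(k : L2 Ω), T g⟫_ℂ = 0} := by
    refine closure_minimal ?_ hclosed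
    intro g hg
    show ⟪(k : L2 Ω), T g⟫_ℂ = 0
    rw [hT.extends_hankel g hg]
    exact (Submodule.mem_orthogonal _ _).1
      (Submodule.sub_starProjection_mem_orthogonal (K := bergman Ω) _) _ k.2
  exact hsub (hT.dense_domain g)

end

end Pool.Agent.Helper76_Hankel
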