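import Pool.Agent.Helper76_Hankel.Holo

set_option autoImplicit false

open MeasureTheory Filter Topology
open scoped ENNReal ComplexConjugate

/-!
# Hankel operators with conjugate holomorphic symbols on Bergman spaces: the definitions

Everything is stated for a set `Ω ⊆ ℂⁿ` (which is open in the theorems), with Lebesgue measure.
-/

namespace Pool.Agent.Helper76_HankelStatement

/-- A set `Ω ⊆ ℂⁿ` is *Reinhardt* if `(z₁, …, zₙ) ∈ Ω` implies
`(e^{iθ₁} z₁, …, e^{iθₙ} zₙ) ∈ Ω` for all real `θ₁, …, θₙ`. -/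
def IsReinhardt {n : ℕ} (Ω : Set (Fin n → ℂ)) : Prop :=
  ∀ z ∈ Ω, ∀ θ : Fin n → ℝ, (fun j => Complex.exp (θ j * Complex.I) * z j) ∈ Ω

/-- The Hilbert space `L²(Ω)` with respect to Lebesgue measure on `ℂⁿ`. -/
def LTwo {n : ℕ} (Ω : Set (Fin n → ℂ)) : Type := Lp ℂ 2 (volume.restrict Ω)

noncomputable instance {n : ℕ} (Ω : Set (Fin n → ℂ)) : NormedAddCommGroup (LTwo Ω) :=
  (inferInstance : NormedAddCommGroup (Lp ℂ 2 (volume.restrict Ω)))

noncomputable instance {n : ℕ} (Ω : Set (Fin n → ℂ)) : InnerProductSpace ℂ (LTwo Ω) :=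
  (inferInstance : InnerProductSpace ℂ (Lp ℂ 2 (volume.restrict Ω)))

instance {n : ℕ} (Ω : Set (Fin n → ℂ)) : CompleteSpace (LTwo Ω) :=
  (inferInstance : CompleteSpace (Lp ℂ 2 (volume.restrict Ω)))

/-- A function on `ℂⁿ` representing the class `u ∈ L²(Ω)` (unique up to changes on null sets
and outside `Ω`). -/
noncomputable def LTwo.fn {n : ℕ} {Ω : Set (Fin n → ℂ)} (u : LTwo Ω) : (Fin n → ℂ) → ℂ :=
  (show Lp ℂ 2 (volume.restrict Ω) from u)

/-- The class `u ∈ L²(Ω)` is represented by the function `g`: they agree almost everywhere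
on `Ω`. -/
def Represents {n : ℕ} {Ω : Set (Fin n → ℂ)} (g : (Fin n → ℂ) → ℂ) (u : LTwo Ω) : Prop :=
  u.fn =ᵐ[volume.restrict Ω] g

/-- The Bergman space `A²(Ω)`: the classes in `L²(Ω)` which are represented by a function that is
holomorphic (complex differentiable) on `Ω`. -/
def bergman {n : ℕ} (Ω : Set (Fin n → ℂ)) : Submodule ℂ (LTwo Ω) where
  carrier := {u | ∃ g : (Fin n → ℂ) → ℂ, DifferentiableOn ℂ g Ω ∧ Represents g u}
  add_mem' := by
    rintro u v ⟨g, hg, hu⟩ ⟨g', hg', hv⟩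
    refine ⟨g + g', hg.add hg', ?_⟩
    filter_upwards [Lp.coeFn_add (show Lp ℂ 2 (volume.restrict Ω) from u)
      (show Lp ℂ 2 (volume.restrict Ω) from v), hu, hv] with z h1 h2 h3
    exact h1.trans (congrArg₂ (· + ·) h2 h3)
  zero_mem' := ⟨0, differentiableOn_const 0, Lp.coeFn_zero ℂ 2 _⟩
  smul_mem' := by
    rintro c u ⟨g, hg, hu⟩
    refine ⟨c • g, hg.const_smul c, ?_⟩
    filter_upwards [Lp.coeFn_smul c (show Lp ℂ 2 (volume.restrict Ω) from u), hu] with z h1 h2
    exact h1.trans (congrArg (c • ·) h2)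

/-- For open `Ω` the Bergman space is closed in `L²(Ω)`. -/
theorem isClosed_bergman {n : ℕ} {Ω : Set (Fin n → ℂ)} (hΩ : IsOpen Ω) :
    IsClosed (bergman Ω : Set (LTwo Ω)) := by
  refine IsSeqClosed.isClosed ?_
  intro x u hx hlim
  choose F hF hxF using hx
  have hT : Tendsto (fun k => eLpNorm (fun w => F k w - u.fn w) 2
      (volume.restrict Ω)) atTop (𝓝 0) := by
    have h1 := (tendsto_iff_edist_tendsto_0.1 hlim)
    refine h1.congr fun k => ?_
    refine (Lp.edist_def (show Lp ℂ 2 (volume.restrict Ω) from x k)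
      (show Lp ℂ 2 (volume.restrict Ω) from u)).trans (eLpNorm_congr_ae ?_)
    filter_upwards [hxF k] with z hz
    show (x k).fn z - u.fn z = F k z - u.fn z
    rw [hz]
  obtain ⟨G, hG, huG⟩ := Helper76_Hankel.exists_holomorphic_of_L2loc hΩ hF
    (Lp.aestronglyMeasurable (show Lp ℂ 2 (volume.restrict Ω) from u)) (fun z hz => by
      obtain ⟨r, hr, hsub⟩ := Metric.isOpen_iff.1 hΩ z hz
      refine ⟨r, hr, hsub, ?_⟩
      refine tendsto_of_tendsto_of_tendsto_of_le_of_le tendsto_const_nhds hT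
        (fun k => zero_le) (fun k => ?_)
      exact eLpNorm_mono_measure _ (Measure.restrict_mono hsub le_rfl))
  exact ⟨G, hG, huG⟩

/-- The Bergman projection `P`: the orthogonal projection of `L²(Ω)` onto (the closure of) `A²(Ω)`,
as an operator on `L²(Ω)`. For open `Ω` the space `A²(Ω)` is closed, see `isClosed_bergman`, so
that the closure is `A²(Ω)` itself. -/
noncomputable def bergmanProj {n : ℕ} (Ω : Set (Fin n → ℂ)) : LTwo Ω →L[ℂ] LTwo Ω :=
  (bergman Ω).topologicalClosure.starProjection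

/-- `u = \bar f g`, where `g` and `u` are classes in `L²(Ω)` and `f` is a function. -/
def IsConjMul {n : ℕ} {Ω : Set (Fin n → ℂ)} (f : (Fin n → ℂ) → ℂ) (g u : LTwo Ω) : Prop :=
  Represents (fun z => conj (f z) * g.fn z) u

/-- The Bergman space `A²(Ω)` as a Hilbert space of its own (the type of the subspace
`bergman Ω`, with the structure inherited from `L²(Ω)`). -/
def BergmanSpace {n : ℕ} (Ω : Set (Fin n → ℂ)) : Type := bergman Ω

noncomputable instance {n : ℕ} (Ω : Set (Fin n → ℂ)) : NormedAddCommGroup (BergmanSpace Ω) :=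
  (inferInstance : NormedAddCommGroup (bergman Ω))

noncomputable instance {n : ℕ} (Ω : Set (Fin n → ℂ)) : InnerProductSpace ℂ (BergmanSpace Ω) :=
  (inferInstance : InnerProductSpace ℂ (bergman Ω))

/-- The inclusion of `A²(Ω)` in `L²(Ω)`. -/
def BergmanSpace.incl {n : ℕ} {Ω : Set (Fin n → ℂ)} (g : BergmanSpace Ω) : LTwo Ω :=
  (show bergman Ω from g)

/-- `T : A²(Ω) → L²(Ω)` is a Hilbert-Schmidt extension of the Hankel operator
`H_{\bar f} g = (I - P)(\bar f g)`, whose domain consists of all `g ∈ A²(Ω)` with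
`\bar f g ∈ L²(Ω)`: this domain is dense in `A²(Ω)`, the bounded operator `T` extends
`H_{\bar f}`, and `∑ ‖T eₖ‖² < ∞` for an orthonormal (Hilbert) basis `(eₖ)` of `A²(Ω)`. -/
structure IsHilbertSchmidtHankel {n : ℕ} (Ω : Set (Fin n → ℂ)) (f : (Fin n → ℂ) → ℂ)
    (T : BergmanSpace Ω →L[ℂ] LTwo Ω) : Prop where
  dense_domain : Dense {g : BergmanSpace Ω | ∃ u : LTwo Ω, IsConjMul f g.incl u}
  extends_hankel : ∀ (g : BergmanSpace Ω) (u : LTwo Ω),
    IsConjMul f g.incl u → T g = u - bergmanProj Ω u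
  hilbertSchmidt : ∃ (ι : Type) (e : HilbertBasis ι ℂ (BergmanSpace Ω)),
    Summable (fun k => ‖T (e k)‖ ^ 2)

end Pool.Agent.Helper76_HankelStatement
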