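import Pool.Agent.Helper76_Hankel.Final
import Pool.Agent.Helper76_Hankel.Statement

set_option autoImplicit false

open MeasureTheory Filter Topology TopologicalSpace
open scoped ENNReal ComplexConjugate

namespace Pool.Agent.Helper76_HankelStatement

variable {n : ℕ}

theorem main {Ω : Set (Fin n → ℂ)} (hn : 2 ≤ n) (ho : IsOpen Ω) (hc : IsConnected Ω)
    (hb : Bornology.IsBounded Ω) (hR : IsReinhardt Ω) {f : (Fin n → ℂ) → ℂ}
    (hf : DifferentiableOn ℂ f Ω) {T : BergmanSpace Ω →L[ℂ] LTwo Ω}
    (hT : IsHilbertSchmidtHankel Ω f T) : T = 0 := by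
  set Ω' : Opens (Fin n → ℂ) := ⟨Ω, ho⟩ with hΩ'
  have hclosed : (bergman Ω).topologicalClosure = bergman Ω :=
    (isClosed_bergman ho).submodule_topologicalClosure_eq
  refine Helper76_Hankel.main (Ω := Ω') (T := T) hn hR hc hb hf ⟨?_, ?_, ?_⟩
  · refine hT.dense_domain.mono ?_
    rintro g ⟨u, hu⟩
    exact MemLp.ae_eq hu (Lp.memLp (show Lp ℂ 2 (volume.restrict Ω) from u))
  · intro g hg
    have h1 := hT.extends_hankel g (MemLp.toLp _ hg) (MemLp.coeFn_toLp hg)
    have h2 : ∀ x : LTwo Ω, bergmanProj Ω x = Helper76_Hankel.bergmanProj Ω' x := by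
      intro x
      refine Submodule.eq_starProjection_of_mem_orthogonal
        (K := (bergman Ω).topologicalClosure) (u := x) ?_ ?_
      · rw [hclosed]
        exact Submodule.starProjection_apply_mem (Helper76_Hankel.bergman Ω') x
      · rw [hclosed]
        exact Submodule.sub_starProjection_mem_orthogonal (K := Helper76_Hankel.bergman Ω') x
    refine h1.trans ?_
    have h3 : ∀ a y y' : LTwo Ω, y = y' → a - y = a - y' := fun a y y' h => by rw [h]
    exact h3 _ _ _ (h2 _)
  · exact hT.hilbertSchmidt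

end Pool.Agent.Helper76_HankelStatement
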