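import Pool.Agent.Helper76_Hankel.Holo

set_option autoImplicit false

open MeasureTheory Filter Topology TopologicalSpace
open scoped ENNReal ComplexConjugate

namespace Pool.Agent.Helper76_Hankel

/-- A set `Ω ⊆ ℂⁿ` is *Reinhardt* if `(z₁, …, zₙ) ∈ Ω` implies
`(e^{iθ₁} z₁, …, e^{iθₙ} zₙ) ∈ Ω` for all real `θ₁, …, θₙ`. -/
def IsReinhardt {n : ℕ} (Ω : Set (Fin n → ℂ)) : Prop :=
  ∀ z ∈ Ω, ∀ θ : Fin n → ℝ, (fun j => Complex.exp (θ j * Complex.I) * z j) ∈ Ω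

/-- `L²(Ω)` with respect to Lebesgue measure on `ℂⁿ`, for an open set `Ω ⊆ ℂⁿ`. -/
abbrev L2 {n : ℕ} (Ω : Opens (Fin n → ℂ)) : Type :=
  Lp ℂ 2 (volume.restrict (Ω : Set (Fin n → ℂ)))

/-- The Bergman space `A²(Ω)`: the classes in `L²(Ω)` which are represented by a function that is
holomorphic (complex differentiable) on `Ω`. -/
def bergman {n : ℕ} (Ω : Opens (Fin n → ℂ)) : Submodule ℂ (L2 Ω) where
  carrier := {u | ∃ g : (Fin n → ℂ) → ℂ, DifferentiableOn ℂ g Ω ∧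
    u =ᵐ[volume.restrict (Ω : Set (Fin n → ℂ))] g}
  add_mem' := by
    rintro u v ⟨g, hg, hu⟩ ⟨g', hg', hv⟩
    refine ⟨g + g', hg.add hg', ?_⟩
    filter_upwards [Lp.coeFn_add u v, hu, hv] with z h1 h2 h3
    rw [h1, Pi.add_apply, h2, h3, Pi.add_apply]
  zero_mem' := ⟨0, differentiableOn_const 0, Lp.coeFn_zero ℂ 2 _⟩
  smul_mem' := by
    rintro c u ⟨g, hg, hu⟩
    refine ⟨c • g, hg.const_smul c, ?_⟩
    filter_upwards [Lp.coeFn_smul c u, hu] with z h1 h2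
    rw [h1, Pi.smul_apply, h2, Pi.smul_apply]

/-- `A²(Ω)` is closed in `L²(Ω)`. -/
theorem isClosed_bergman {n : ℕ} (Ω : Opens (Fin n → ℂ)) :
    IsClosed (bergman Ω : Set (L2 Ω)) := by
  refine IsSeqClosed.isClosed ?_
  intro x u hx hlim
  choose F hF hxF using hx
  have hT : Tendsto (fun k => eLpNorm (fun w => F k w - u w) 2
      (volume.restrict (Ω : Set (Fin n → ℂ)))) atTop (𝓝 0) := by
    have h1 := (tendsto_iff_edist_tendsto_0.1 hlim)
    refine h1.congr fun k => ?_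
    rw [Lp.edist_def]
    refine eLpNorm_congr_ae ?_
    filter_upwards [hxF k] with z hz
    simp [hz]
  obtain ⟨G, hG, huG⟩ := exists_holomorphic_of_L2loc Ω.isOpen hF
    (Lp.aestronglyMeasurable u) (fun z hz => by
      obtain ⟨r, hr, hsub⟩ := Metric.isOpen_iff.1 Ω.isOpen z hz
      refine ⟨r, hr, hsub, ?_⟩
      refine tendsto_of_tendsto_of_tendsto_of_le_of_le tendsto_const_nhds hT
        (fun k => zero_le) (fun k => ?_)
      exact eLpNorm_mono_measure _ (Measure.restrict_mono hsub le_rfl))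
  exact ⟨G, hG, huG⟩

instance instCompleteBergman {n : ℕ} (Ω : Opens (Fin n → ℂ)) : CompleteSpace (bergman Ω) :=
  (isClosed_bergman Ω).completeSpace_coe

/-- The Bergman projection: the orthogonal projection of `L²(Ω)` onto `A²(Ω)`,
as an operator on `L²(Ω)`. -/
noncomputable def bergmanProj {n : ℕ} (Ω : Opens (Fin n → ℂ)) : L2 Ω →L[ℂ] L2 Ω :=
  (bergman Ω).starProjection

/-- The domain of the Hankel operator `H_{\bar f}`: all `g ∈ A²(Ω)` with `\bar f g ∈ L²(Ω)`. -/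
def hankelDomain {n : ℕ} (Ω : Opens (Fin n → ℂ)) (f : (Fin n → ℂ) → ℂ) : Set (bergman Ω) :=
  {g | MemLp (fun z => conj (f z) * (g : L2 Ω) z) 2 (volume.restrict (Ω : Set (Fin n → ℂ)))}

/-- The Hankel operator `H_{\bar f} g = (I - P)(\bar f g)` for `g` in its domain. -/
noncomputable def hankel {n : ℕ} (Ω : Opens (Fin n → ℂ)) (f : (Fin n → ℂ) → ℂ)
    (g : bergman Ω) (hg : g ∈ hankelDomain Ω f) : L2 Ω :=
  MemLp.toLp (fun z => conj (f z) * (g : L2 Ω) z) hg -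
    bergmanProj Ω (MemLp.toLp (fun z => conj (f z) * (g : L2 Ω) z) hg)

/-- `T : A²(Ω) → L²(Ω)` is a Hilbert-Schmidt extension of `H_{\bar f}`: the domain of
`H_{\bar f}` is dense in `A²(Ω)`, the bounded operator `T` extends `H_{\bar f}`, and
`∑ ‖T eₖ‖² < ∞` for an orthonormal (Hilbert) basis `(eₖ)` of `A²(Ω)`. -/
structure IsHilbertSchmidtHankel {n : ℕ} (Ω : Opens (Fin n → ℂ)) (f : (Fin n → ℂ) → ℂ)
    (T : bergman Ω →L[ℂ] L2 Ω) : Prop where
  dense_domain : Dense (hankelDomain Ω f)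
  extends_hankel : ∀ (g : bergman Ω) (hg : g ∈ hankelDomain Ω f), T g = hankel Ω f g hg
  hilbertSchmidt : ∃ (ι : Type) (e : HilbertBasis ι ℂ (bergman Ω)),
    Summable (fun k => ‖T (e k)‖ ^ 2)

end Pool.Agent.Helper76_Hankel
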