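import Pool.Agent.Helper76_Hankel.Key

set_option autoImplicit false

open MeasureTheory Set Filter Topology Metric TopologicalSpace
open scoped ENNReal NNReal ComplexConjugate InnerProductSpace

namespace Pool.Agent.Helper76_Hankel

noncomputable section

open Classical in
/-- The exponents occurring in `A²(Ω)`. -/
def SS {n : ℕ} (Ω : Opens (Fin n → ℂ)) : Set (Fin n → ℤ) := {γ | ∃ e, WFun Ω γ e}

open Classical in
/-- A chosen unit weight function. -/
def ee {n : ℕ} (Ω : Opens (Fin n → ℂ)) (γ : Fin n → ℤ) : (Fin n → ℂ) → ℂ :=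
  if h : γ ∈ SS Ω then Classical.choose h else 0

variable {n : ℕ} {Ω : Opens (Fin n → ℂ)} {f : (Fin n → ℂ) → ℂ} {T : bergman Ω →L[ℂ] L2 Ω}

theorem ee_spec {γ : Fin n → ℤ} (h : γ ∈ SS Ω) : WFun Ω γ (ee Ω γ) := by
  unfold ee
  rw [dif_pos h]
  exact Classical.choose_spec h

open Classical in
/-- `‖h e_γ‖²` for `γ` in the set of exponents, and `0` otherwise. -/
def RR (Ω : Opens (Fin n → ℂ)) (h : (Fin n → ℂ) → ℂ) (γ : Fin n → ℤ) : ℝ :=
  if γ ∈ SS Ω then ∫ z in (Ω : Set (Fin n → ℂ)), ‖h z * ee Ω γ z‖ ^ 2 else 0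

open Classical in
/-- `‖T e_γ‖²` for `γ` in the set of exponents, and `0` otherwise. -/
def psi (T : bergman Ω →L[ℂ] L2 Ω) (γ : Fin n → ℤ) : ℝ :=
  if h : γ ∈ SS Ω then ‖T (ee_spec h).toBergman‖ ^ 2 else 0

theorem psi_nonneg (T : bergman Ω →L[ℂ] L2 Ω) (γ : Fin n → ℤ) : 0 ≤ psi T γ := by
  unfold psi
  split_ifs
  · positivity
  · exact le_rfl

theorem shift_mem (hI : Inv (Ω : Set (Fin n → ℂ))) (hc : IsPreconnected (Ω : Set (Fin n → ℂ)))
    (hf : DifferentiableOn ℂ f Ω) (hT : IsHilbertSchmidtHankel Ω f T) {β γ : Fin n → ℤ}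
    (hβ : ∃ z ∈ Ω, wpart β f z ≠ 0) (h : γ ∈ SS Ω) : γ + β ∈ SS Ω :=
  shift hI hc hf hT hβ (ee_spec h)

theorem psi_ge (hI : Inv (Ω : Set (Fin n → ℂ))) (hc : IsPreconnected (Ω : Set (Fin n → ℂ)))
    (hf : DifferentiableOn ℂ f Ω) (hT : IsHilbertSchmidtHankel Ω f T) {β : Fin n → ℤ}
    (hβ : ∃ z ∈ Ω, wpart β f z ≠ 0) (γ : Fin n → ℤ) :
    RR Ω (wpart β f) γ - RR Ω (wpart β f) (γ - β) ≤ psi T γ := by
  by_cases hγ : γ ∈ SS Ω
  · have hkey := key_ineq hI hc hf hT hβ (ee_spec hγ)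
    unfold RR psi
    rw [if_pos hγ, dif_pos hγ]
    by_cases hγ' : γ - β ∈ SS Ω
    · rw [if_pos hγ']
      exact hkey.2 _ (ee_spec hγ')
    · rw [if_neg hγ', sub_zero]
      exact hkey.1 hγ'
  · have hγ' : γ - β ∉ SS Ω := by
      intro h
      apply hγ
      have := shift_mem hI hc hf hT hβ h
      rwa [sub_add_cancel] at this
    unfold RR psi
    rw [if_neg hγ, dif_neg hγ, if_neg hγ', sub_zero]

/-- Telescoping along a line. -/
theorem line_sum (hI : Inv (Ω : Set (Fin n → ℂ))) (hc : IsPreconnected (Ω : Set (Fin n → ℂ)))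
    (hf : DifferentiableOn ℂ f Ω) (hT : IsHilbertSchmidtHankel Ω f T) {β : Fin n → ℤ}
    (hβ : ∃ z ∈ Ω, wpart β f z ≠ 0) (γ : Fin n → ℤ) (N : ℕ) :
    RR Ω (wpart β f) (γ + (N : ℤ) • β) - RR Ω (wpart β f) γ ≤
      ∑ i ∈ Finset.range N, psi T (γ + ((i + 1 : ℕ) : ℤ) • β) := by
  have h1 := Finset.sum_range_sub (fun i : ℕ => RR Ω (wpart β f) (γ + (i : ℤ) • β)) N
  simp only [Nat.cast_zero, zero_smul, add_zero] at h1
  rw [← h1]
  refine Finset.sum_le_sum fun i _ => ?_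
  have h2 := psi_ge hI hc hf hT hβ (γ + ((i + 1 : ℕ) : ℤ) • β)
  have h3 : γ + ((i + 1 : ℕ) : ℤ) • β - β = γ + (i : ℤ) • β := by
    push_cast
    rw [add_smul, one_smul]
    abel
  rwa [h3] at h2

/-- The `L²` mass of `e_γ` on a set. -/
def mass (Ω : Opens (Fin n → ℂ)) (U : Set (Fin n → ℂ)) (γ : Fin n → ℤ) : ℝ :=
  ∫ z in U, ‖ee Ω γ z‖ ^ 2

theorem mass_le_one {U : Set (Fin n → ℂ)} (hU : U ⊆ Ω) {γ : Fin n → ℤ} (h : γ ∈ SS Ω) :
    mass Ω U γ ≤ 1 := by
  rw [← (ee_spec h).norm_one]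
  exact setIntegral_mono_set (integrable_norm_sq (ee_spec h).memLp)
    (ae_of_all _ fun z => by positivity) (LE.le.eventuallyLE hU)

theorem mass_pos (hc : IsPreconnected (Ω : Set (Fin n → ℂ))) {U : Set (Fin n → ℂ)}
    (hU : U ⊆ Ω) (hUo : IsOpen U) (hUne : U.Nonempty) {γ : Fin n → ℤ} (h : γ ∈ SS Ω) :
    0 < mass Ω U γ := by
  have he := ee_spec h
  obtain ⟨z, hz, hne⟩ : ∃ z ∈ U, ee Ω γ z ≠ 0 := by
    by_contra hcon
    push Not at hcon
    obtain ⟨z, hz⟩ := hUne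
    have h0 := eqOn_zero_of_eventually Ω.isOpen hc he.diff (hU hz) (by
      filter_upwards [hUo.mem_nhds hz] with w hw
      exact hcon w hw)
    obtain ⟨w, hw, hwne⟩ := he.exists_ne
    exact hwne (h0 w hw)
  exact integral_norm_sq_pos he.memLp hUo hU (he.diff.continuousOn.mono hU) hz hne

/-- `∫_U ‖h e_γ‖² = ‖h e_γ‖² ∫_U ‖e_{γ+β}‖²`. -/
theorem mass_step (hI : Inv (Ω : Set (Fin n → ℂ))) (hc : IsPreconnected (Ω : Set (Fin n → ℂ)))
    (hf : DifferentiableOn ℂ f Ω) {β γ : Fin n → ℤ} (h : γ ∈ SS Ω) (h' : γ + β ∈ SS Ω)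
    {U : Set (Fin n → ℂ)} (hU : U ⊆ Ω) (hUo : IsOpen U) :
    ∫ z in U, ‖wpart β f z * ee Ω γ z‖ ^ 2 = RR Ω (wpart β f) γ * mass Ω U (γ + β) := by
  obtain ⟨c, hcc, hcn⟩ := mul_eq_const hI hc hf (ee_spec h) (ee_spec h')
  unfold RR mass
  rw [if_pos h, ← hcn, ← integral_const_mul]
  refine setIntegral_congr_fun hUo.measurableSet fun z hz => ?_
  rw [hcc z (hU hz), norm_mul, mul_pow]

theorem memLp_h_mul (hI : Inv (Ω : Set (Fin n → ℂ)))
    (hc : IsPreconnected (Ω : Set (Fin n → ℂ)))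
    (hf : DifferentiableOn ℂ f Ω) {β γ : Fin n → ℤ} (h : γ ∈ SS Ω) (h' : γ + β ∈ SS Ω) :
    MemLp (fun z => wpart β f z * ee Ω γ z) 2 (mu Ω) :=
  memLp_mul hI hc hf (ee_spec h) (ee_spec h')

/-- Going up along the line, `‖h e_γ‖²` eventually exceeds every `t < sup |h|²`. -/
theorem exists_up (hI : Inv (Ω : Set (Fin n → ℂ))) (hc : IsPreconnected (Ω : Set (Fin n → ℂ)))
    (hf : DifferentiableOn ℂ f Ω) (hT : IsHilbertSchmidtHankel Ω f T) {β : Fin n → ℤ}
    (hβ : ∃ z ∈ Ω, wpart β f z ≠ 0) {α : Fin n → ℤ} (hα : α ∈ SS Ω) {t : ℝ} (ht : 0 < t)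
    (hz : ∃ z ∈ Ω, t < ‖wpart β f z‖ ^ 2) :
    ∃ K : ℕ, t ≤ RR Ω (wpart β f) (α + (K : ℤ) • β) := by
  set h : (Fin n → ℂ) → ℂ := wpart β f with hh
  have hhd : DifferentiableOn ℂ h Ω := differentiableOn_wpart hI Ω.isOpen β hf
  by_contra hcon
  push Not at hcon
  obtain ⟨z, hzΩ, hzt⟩ := hz
  obtain ⟨t₁, ht₁, ht₁'⟩ := exists_between hzt
  set U : Set (Fin n → ℂ) := (Ω : Set (Fin n → ℂ)) ∩ (fun z => ‖h z‖ ^ 2) ⁻¹' (Ioi t₁) with hU
  have hUΩ : U ⊆ Ω := inter_subset_left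
  have hUo : IsOpen U :=
    (hhd.continuousOn.norm.pow 2).isOpen_inter_preimage Ω.isOpen isOpen_Ioi
  have hUne : U.Nonempty := ⟨z, hzΩ, ht₁'⟩
  have hmem : ∀ k : ℕ, α + (k : ℤ) • β ∈ SS Ω := by
    intro k
    induction k with
    | zero => simpa using hα
    | succ k ih =>
      have := shift_mem hI hc hf hT hβ ih
      have h2 : α + ((k + 1 : ℕ) : ℤ) • β = α + (k : ℤ) • β + β := by
        push_cast; rw [add_smul, one_smul]; abel
      rwa [h2]
  have hstep : ∀ k : ℕ, t₁ ^ k * mass Ω U α ≤ t ^ k * mass Ω U (α + (k : ℤ) • β) := by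
    intro k
    induction k with
    | zero => simp
    | succ k ih =>
      have hk := hmem k
      have hk1 := shift_mem hI hc hf hT hβ hk
      have h2 : α + ((k + 1 : ℕ) : ℤ) • β = α + (k : ℤ) • β + β := by
        push_cast; rw [add_smul, one_smul]; abel
      have hm := mass_step hI hc hf hk hk1 hUΩ hUo
      have hlow : t₁ * mass Ω U (α + (k : ℤ) • β) ≤
          ∫ z in U, ‖wpart β f z * ee Ω (α + (k : ℤ) • β) z‖ ^ 2 := by
        unfold mass
        rw [← integral_const_mul]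
        refine setIntegral_mono_on ?_ ?_ hUo.measurableSet ?_
        · exact (((integrable_norm_sq (ee_spec hk).memLp).mono_measure
            (Measure.restrict_mono hUΩ le_rfl)).const_mul _)
        · exact (integrable_norm_sq (memLp_h_mul hI hc hf hk hk1)).mono_measure
            (Measure.restrict_mono hUΩ le_rfl)
        · intro w hw
          rw [norm_mul, mul_pow]
          exact mul_le_mul_of_nonneg_right (le_of_lt hw.2) (by positivity)
      rw [hm] at hlow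
      have hup : RR Ω (wpart β f) (α + (k : ℤ) • β) * mass Ω U (α + (k : ℤ) • β + β) ≤
          t * mass Ω U (α + (k : ℤ) • β + β) :=
        mul_le_mul_of_nonneg_right (hcon k).le (mass_pos hc hUΩ hUo hUne hk1).le
      have h3 : t₁ * mass Ω U (α + (k : ℤ) • β) ≤ t * mass Ω U (α + (k : ℤ) • β + β) :=
        hlow.trans hup
      have ht₁0 : 0 < t₁ := ht.trans ht₁
      rw [h2]
      calc t₁ ^ (k + 1) * mass Ω U α = t₁ * (t₁ ^ k * mass Ω U α) := by ring
        _ ≤ t₁ * (t ^ k * mass Ω U (α + (k : ℤ) • β)) := by gcongr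
        _ = t ^ k * (t₁ * mass Ω U (α + (k : ℤ) • β)) := by ring
        _ ≤ t ^ k * (t * mass Ω U (α + (k : ℤ) • β + β)) := by gcongr
        _ = t ^ (k + 1) * mass Ω U (α + (k : ℤ) • β + β) := by ring
  have hmpos := mass_pos hc hUΩ hUo hUne hα
  have hratio : 1 < t₁ / t := (one_lt_div ht).2 ht₁
  obtain ⟨k, hk⟩ := pow_unbounded_of_one_lt (1 / mass Ω U α) hratio
  have h1 := hstep k
  have h2 := mass_le_one hUΩ (hmem k)
  have h3 : t ^ k * mass Ω U (α + (k : ℤ) • β) ≤ t ^ k * 1 := by gcongr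
  have h4 : t₁ ^ k * mass Ω U α ≤ t ^ k := by linarith
  rw [div_pow, div_lt_div_iff₀ hmpos (by positivity)] at hk
  linarith

/-- Going down along the line, `‖h e_γ‖²` eventually drops below every `s > inf |h|²`. -/
theorem exists_down (hI : Inv (Ω : Set (Fin n → ℂ)))
    (hc : IsPreconnected (Ω : Set (Fin n → ℂ)))
    (hf : DifferentiableOn ℂ f Ω) {β : Fin n → ℤ}
    {α : Fin n → ℤ} (hα : α ∈ SS Ω) {s : ℝ} (hs : 0 < s)
    (hz : ∃ z ∈ Ω, ‖wpart β f z‖ ^ 2 < s) :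
    ∃ K : ℕ, RR Ω (wpart β f) (α - (K : ℤ) • β) ≤ s := by
  set h : (Fin n → ℂ) → ℂ := wpart β f with hh
  have hhd : DifferentiableOn ℂ h Ω := differentiableOn_wpart hI Ω.isOpen β hf
  by_contra hcon
  push Not at hcon
  have hmem : ∀ k : ℕ, α - (k : ℤ) • β ∈ SS Ω := by
    intro k
    by_contra hk
    have := hcon k
    unfold RR at this
    rw [if_neg hk] at this
    linarith
  obtain ⟨z, hzΩ, hzt⟩ := hz
  obtain ⟨s₁, hs₁', hs₁⟩ := exists_between hzt
  have hs₁0 : 0 < s₁ := lt_of_le_of_lt (by positivity) hs₁'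
  set U : Set (Fin n → ℂ) := (Ω : Set (Fin n → ℂ)) ∩ (fun z => ‖h z‖ ^ 2) ⁻¹' (Iio s₁) with hU
  have hUΩ : U ⊆ Ω := inter_subset_left
  have hUo : IsOpen U :=
    (hhd.continuousOn.norm.pow 2).isOpen_inter_preimage Ω.isOpen isOpen_Iio
  have hUne : U.Nonempty := ⟨z, hzΩ, hs₁'⟩
  have hstep : ∀ k : ℕ, s ^ k * mass Ω U α ≤ s₁ ^ k * mass Ω U (α - (k : ℤ) • β) := by
    intro k
    induction k with
    | zero => simp
    | succ k ih =>
      have hk := hmem k
      have hk1 := hmem (k + 1)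
      have h2 : α - ((k + 1 : ℕ) : ℤ) • β + β = α - (k : ℤ) • β := by
        push_cast; rw [add_smul, one_smul]; abel
      have hk' : α - ((k + 1 : ℕ) : ℤ) • β + β ∈ SS Ω := by rw [h2]; exact hk
      have hm := mass_step hI hc hf hk1 hk' hUΩ hUo
      have hlow : ∫ z in U, ‖wpart β f z * ee Ω (α - ((k + 1 : ℕ) : ℤ) • β) z‖ ^ 2 ≤
          s₁ * mass Ω U (α - ((k + 1 : ℕ) : ℤ) • β) := by
        unfold mass
        rw [← integral_const_mul]
        refine setIntegral_mono_on ?_ ?_ hUo.measurableSet ?_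
        · exact (integrable_norm_sq (memLp_h_mul hI hc hf hk1 hk')).mono_measure
            (Measure.restrict_mono hUΩ le_rfl)
        · exact (((integrable_norm_sq (ee_spec hk1).memLp).mono_measure
            (Measure.restrict_mono hUΩ le_rfl)).const_mul _)
        · intro w hw
          rw [norm_mul, mul_pow]
          exact mul_le_mul_of_nonneg_right (le_of_lt hw.2) (by positivity)
      rw [hm, h2] at hlow
      have hup : s * mass Ω U (α - (k : ℤ) • β) ≤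
          RR Ω (wpart β f) (α - ((k + 1 : ℕ) : ℤ) • β) * mass Ω U (α - (k : ℤ) • β) :=
        mul_le_mul_of_nonneg_right (hcon (k + 1)).le (mass_pos hc hUΩ hUo hUne hk).le
      have h3 : s * mass Ω U (α - (k : ℤ) • β) ≤ s₁ * mass Ω U (α - ((k + 1 : ℕ) : ℤ) • β) :=
        hup.trans hlow
      calc s ^ (k + 1) * mass Ω U α = s * (s ^ k * mass Ω U α) := by ring
        _ ≤ s * (s₁ ^ k * mass Ω U (α - (k : ℤ) • β)) := by gcongr
        _ = s₁ ^ k * (s * mass Ω U (α - (k : ℤ) • β)) := by ring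
        _ ≤ s₁ ^ k * (s₁ * mass Ω U (α - ((k + 1 : ℕ) : ℤ) • β)) := by gcongr
        _ = s₁ ^ (k + 1) * mass Ω U (α - ((k + 1 : ℕ) : ℤ) • β) := by ring
  have hmpos := mass_pos hc hUΩ hUo hUne hα
  have hratio : 1 < s / s₁ := (one_lt_div hs₁0).2 hs₁
  obtain ⟨k, hk⟩ := pow_unbounded_of_one_lt (1 / mass Ω U α) hratio
  have h1 := hstep k
  have h2 := mass_le_one hUΩ (hmem k)
  have h3 : s₁ ^ k * mass Ω U (α - (k : ℤ) • β) ≤ s₁ ^ k * 1 := by gcongr
  have h4 : s ^ k * mass Ω U α ≤ s₁ ^ k := by linarith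
  rw [div_pow, div_lt_div_iff₀ hmpos (by positivity)] at hk
  linarith

/-- The unit weight functions form an orthonormal family in the Bergman space. -/
theorem orthonormal_ee (hI : Inv (Ω : Set (Fin n → ℂ))) :
    Orthonormal ℂ (fun γ : SS Ω => (ee_spec γ.2).toBergman) := by
  constructor
  · intro γ
    exact (ee_spec γ.2).norm_toBergman
  · intro γ γ' hne
    have hne' : (γ' : Fin n → ℤ) ≠ γ := fun h => hne (Subtype.ext h.symm)
    show ⟪((ee_spec γ.2).toBergman : L2 Ω), ((ee_spec γ'.2).toBergman : L2 Ω)⟫_ℂ = 0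
    have h1 := inner_toLp (ee_spec γ.2).memLp (ee_spec γ'.2).memLp
    have h2 := orthogonal_of_weight hne' hI (ee_spec γ'.2).weight (ee_spec γ.2).weight
      (ee_spec γ'.2).memLp (ee_spec γ.2).memLp
    rw [h2] at h1
    exact h1

/-- Finite sums of `‖T e_γ‖²` are bounded. -/
theorem exists_bound_sum_psi (hI : Inv (Ω : Set (Fin n → ℂ)))
    (hT : IsHilbertSchmidtHankel Ω f T) :
    ∃ C : ℝ, ∀ A : Finset (Fin n → ℤ), ∑ γ ∈ A, psi T γ ≤ C := by
  classical
  obtain ⟨ι, b, hb⟩ := hT.hilbertSchmidt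
  refine ⟨∑' k, ‖T (b k)‖ ^ 2, fun A => ?_⟩
  have h1 : ∑ γ ∈ A, psi T γ = ∑ γ ∈ A.filter (fun γ => γ ∈ SS Ω), psi T γ := by
    rw [Finset.sum_filter]
    refine Finset.sum_congr rfl fun γ _ => ?_
    split_ifs with h
    · rfl
    · unfold psi; rw [dif_neg h]
  have h2 : ∑ γ ∈ A.filter (fun γ => γ ∈ SS Ω), psi T γ =
      ∑ γ ∈ A.subtype (fun γ => γ ∈ SS Ω), ‖T (ee_spec γ.2).toBergman‖ ^ 2 := by
    rw [← Finset.sum_subtype_eq_sum_filter]
    refine Finset.sum_congr rfl fun γ _ => ?_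
    unfold psi
    rw [dif_pos γ.2]
  rw [h1, h2]
  exact sum_norm_sq_le_of_orthonormal b T hb (orthonormal_ee hI) _

/-- The modulus of a nonzero weight function of nonzero weight is not constant. -/
theorem exists_norm_lt (hI : Inv (Ω : Set (Fin n → ℂ)))
    (hc : IsPreconnected (Ω : Set (Fin n → ℂ)))
    {h : (Fin n → ℂ) → ℂ} (hd : DifferentiableOn ℂ h Ω) {β : Fin n → ℤ} (hβ0 : β ≠ 0)
    (hw : HasWeight (Ω : Set (Fin n → ℂ)) β h) (hne : ∃ z ∈ Ω, h z ≠ 0) :
    ∃ z₁ ∈ Ω, ∃ z₂ ∈ Ω, ‖h z₁‖ < ‖h z₂‖ := by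
  by_contra hcon
  push Not at hcon
  obtain ⟨z₀, hz₀, hne₀⟩ := hne
  have hloc : IsLocalMax (norm ∘ h) z₀ := by
    filter_upwards [Ω.isOpen.mem_nhds hz₀] with w hw'
    exact hcon z₀ hz₀ w hw'
  have hev := Complex.eventually_eq_of_isLocalMax_norm
    (by
      filter_upwards [Ω.isOpen.mem_nhds hz₀] with w hw'
      exact hd.differentiableAt (Ω.isOpen.mem_nhds hw')) hloc
  have h0 := eqOn_zero_of_eventually Ω.isOpen hc (g := fun z => h z - h z₀)
    (hd.sub (differentiableOn_const _)) hz₀ (by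
      filter_upwards [hev] with w hw'
      simp [hw'])
  apply hβ0
  apply mFourier_injective
  ext t
  have h1 := hw z₀ hz₀ t
  have h2 : h (rot t z₀) = h z₀ := sub_eq_zero.1 (h0 _ (hI t z₀ hz₀))
  rw [h2] at h1
  have h3 : UnitAddTorus.mFourier β t = 1 := by
    have := mul_right_cancel₀ hne₀ (h1.symm.trans (one_mul _).symm)
    exact this
  rw [h3, UnitAddTorus.mFourier_zero]
  rfl

/-- Coordinate powers belong to the Bergman space of a bounded domain. -/
theorem single_mem_SS (hne : (Ω : Set (Fin n → ℂ)).Nonempty)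
    (hb : Bornology.IsBounded (Ω : Set (Fin n → ℂ))) (i : Fin n) (m : ℕ) :
    (Pi.single i (m : ℤ) : Fin n → ℤ) ∈ SS Ω := by
  have hd : DifferentiableOn ℂ (fun z : Fin n → ℂ => z i ^ m) Ω := by fun_prop
  refine exists_wFun hd ?_ ?_ ?_
  · intro z _ t
    have h1 : UnitAddTorus.mFourier (Pi.single i (m : ℤ)) t = (AddCircle.toCircle (t i) : ℂ) ^ m := by
      simp only [UnitAddTorus.mFourier, ContinuousMap.coe_mk]
      rw [Finset.prod_eq_single i]
      · simp [fourier_apply, AddCircle.toCircle_nsmul]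
      · intro j _ hj
        simp [hj]
      · intro h; exact absurd (Finset.mem_univ i) h
    rw [h1]
    simp only [rot, mul_pow]
  · obtain ⟨R, hR⟩ := hb.exists_norm_le
    have : IsFiniteMeasure (mu Ω) := ⟨by
      rw [Measure.restrict_apply MeasurableSet.univ, univ_inter]
      exact hb.measure_lt_top⟩
    refine MemLp.of_bound (hd.continuousOn.aestronglyMeasurable Ω.isOpen.measurableSet) (R ^ m) ?_
    filter_upwards [ae_restrict_mem Ω.isOpen.measurableSet] with z hz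
    rw [norm_pow]
    gcongr
    exact (norm_le_pi_norm z i).trans (hR z hz)
  · obtain ⟨z, hz, hz0⟩ := dense_all_ne_zero.inter_open_nonempty _ Ω.isOpen hne
    exact ⟨z, hz, pow_ne_zero _ (hz0 i)⟩

/-- If a nonzero-weight part of `f` is nonzero there is no Hilbert-Schmidt extension. -/
theorem no_hilbertSchmidt (hn : 2 ≤ n) (hI : Inv (Ω : Set (Fin n → ℂ)))
    (hc : IsPreconnected (Ω : Set (Fin n → ℂ))) (hne : (Ω : Set (Fin n → ℂ)).Nonempty)
    (hb : Bornology.IsBounded (Ω : Set (Fin n → ℂ)))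
    (hf : DifferentiableOn ℂ f Ω) {β : Fin n → ℤ} (hβ0 : β ≠ 0)
    (hβ : ∃ z ∈ Ω, wpart β f z ≠ 0) (hT : IsHilbertSchmidtHankel Ω f T) : False := by
  classical
  have hhd : DifferentiableOn ℂ (wpart β f) Ω := differentiableOn_wpart hI Ω.isOpen β hf
  obtain ⟨z₁, hz₁, z₂, hz₂, hlt⟩ := exists_norm_lt hI hc hhd hβ0 (hasWeight_wpart _ _ _) hβ
  have hlt2 : ‖wpart β f z₁‖ ^ 2 < ‖wpart β f z₂‖ ^ 2 := by
    gcongr
  obtain ⟨s, hs1, hs2⟩ := exists_between hlt2
  obtain ⟨t, ht1, ht2⟩ := exists_between hs2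
  have hs0 : 0 < s := lt_of_le_of_lt (by positivity) hs1
  have ht0 : 0 < t := hs0.trans ht1
  obtain ⟨C, hC⟩ := exists_bound_sum_psi hI hT
  -- choose a coordinate `i` and `j ≠ i` with `β j ≠ 0`
  obtain ⟨j, hj⟩ : ∃ j, β j ≠ 0 := by
    by_contra hcon
    push Not at hcon
    exact hβ0 (funext hcon)
  have : Nontrivial (Fin n) := Fin.nontrivial_iff_two_le.2 hn
  obtain ⟨i, hi⟩ := exists_ne j
  set α : ℕ → (Fin n → ℤ) := fun m => Pi.single i (m : ℤ) with hα
  have hαS : ∀ m, α m ∈ SS Ω := fun m => single_mem_SS hne hb i m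
  have hup : ∀ m, ∃ K : ℕ, t ≤ RR Ω (wpart β f) (α m + (K : ℤ) • β) := fun m =>
    exists_up hI hc hf hT hβ (hαS m) ht0 ⟨z₂, hz₂, ht2⟩
  have hdown : ∀ m, ∃ K : ℕ, RR Ω (wpart β f) (α m - (K : ℤ) • β) ≤ s := fun m =>
    exists_down hI hc hf (hαS m) hs0 ⟨z₁, hz₁, hs1⟩
  choose Ku hKu using hup
  choose Kd hKd using hdown
  -- lower bound for each line
  have hline : ∀ m, t - s ≤ ∑ k ∈ Finset.range (Kd m + Ku m),
      psi T (α m - (Kd m : ℤ) • β + ((k + 1 : ℕ) : ℤ) • β) := by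
    intro m
    have h1 := line_sum hI hc hf hT hβ (α m - (Kd m : ℤ) • β) (Kd m + Ku m)
    have h2 : α m - (Kd m : ℤ) • β + ((Kd m + Ku m : ℕ) : ℤ) • β = α m + (Ku m : ℤ) • β := by
      push_cast
      rw [add_smul]
      abel
    rw [h2] at h1
    have := hKu m
    have := hKd m
    linarith
  -- all the exponents are distinct
  set Φ : (Σ _ : ℕ, ℕ) → (Fin n → ℤ) := fun p =>
    α p.1 - (Kd p.1 : ℤ) • β + ((p.2 + 1 : ℕ) : ℤ) • β with hΦ
  have hinj : Function.Injective Φ := by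
    rintro ⟨m, k⟩ ⟨m', k'⟩ heq
    simp only [hΦ, hα] at heq
    have hjj := congrFun heq j
    have hii := congrFun heq i
    simp only [Pi.add_apply, Pi.sub_apply, Pi.smul_apply, Pi.single_eq_same,
      Pi.single_eq_of_ne hi.symm, smul_eq_mul] at hjj hii
    have h1 : (((k + 1 : ℕ) : ℤ) - (Kd m : ℤ)) = (((k' + 1 : ℕ) : ℤ) - (Kd m' : ℤ)) := by
      have : ((((k + 1 : ℕ) : ℤ) - (Kd m : ℤ)) - (((k' + 1 : ℕ) : ℤ) - (Kd m' : ℤ))) * β j = 0 := by
        linear_combination hjj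
      rcases mul_eq_zero.1 this with h | h
      · linarith
      · exact absurd h hj
    have h2 : (m : ℤ) = m' := by
      linear_combination hii - (β i) * h1
    have h3 : m = m' := by exact_mod_cast h2
    subst h3
    have h4 : k = k' := by
      have : ((k : ℤ)) = k' := by
        push_cast at h1
        linarith
      exact_mod_cast this
    subst h4
    rfl
  have hsum : ∀ M : ℕ, (M : ℝ) * (t - s) ≤ C := by
    intro M
    have h1 := hC (((Finset.range M).sigma (fun m => Finset.range (Kd m + Ku m))).image Φ)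
    rw [Finset.sum_image (fun a _ b _ hab => hinj hab), Finset.sum_sigma] at h1
    refine le_trans ?_ h1
    have h2 : (M : ℝ) * (t - s) = ∑ m ∈ Finset.range M, (t - s) := by
      rw [Finset.sum_const, Finset.card_range, nsmul_eq_mul]
    rw [h2]
    exact Finset.sum_le_sum fun m _ => hline m
  have hts : 0 < t - s := by linarith
  obtain ⟨M, hM⟩ := exists_nat_gt (C / (t - s))
  have := hsum M
  rw [div_lt_iff₀ hts] at hM
  linarith

/-- **Main theorem.** On a bounded Reinhardt domain in dimension at least two, every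
Hilbert-Schmidt Hankel operator with conjugate holomorphic symbol vanishes. -/
theorem main (hn : 2 ≤ n) (hR : IsReinhardt (Ω : Set (Fin n → ℂ)))
    (hc : IsConnected (Ω : Set (Fin n → ℂ))) (hb : Bornology.IsBounded (Ω : Set (Fin n → ℂ)))
    (hf : DifferentiableOn ℂ f Ω) (hT : IsHilbertSchmidtHankel Ω f T) : T = 0 := by
  have hI := inv_of_isReinhardt hR
  have hpc := hc.isPreconnected
  have hall : ∀ β : Fin n → ℤ, β ≠ 0 → ∀ z ∈ Ω, wpart β f z = 0 := by
    intro β hβ0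
    by_contra hcon
    push Not at hcon
    exact no_hilbertSchmidt hn hI hpc hc.nonempty hb hf hβ0 hcon hT
  have hw := hasWeight_zero_of_wpart_eq_zero hI hf.continuousOn
    (fun β hβ z hz => hall β hβ z hz)
  have h1 : HasWeight (Ω : Set (Fin n → ℂ)) 0 (fun _ => (1 : ℂ)) := by
    intro z _ t
    simp [UnitAddTorus.mFourier_zero]
  obtain ⟨z₀, hz₀⟩ := hc.nonempty
  obtain ⟨c, hcf⟩ := exists_const_of_hasWeight Ω.isOpen hpc hf
    (differentiableOn_const (1 : ℂ)) hw h1 ⟨z₀, hz₀, one_ne_zero⟩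
  -- now `f = c` on `Ω`
  ext1 g
  have hg : g ∈ hankelDomain Ω f := by
    show MemLp _ 2 _
    refine MemLp.ae_eq ?_ ((Lp.memLp (g : L2 Ω)).const_mul (conj c))
    filter_upwards [ae_restrict_mem Ω.isOpen.measurableSet] with z hz
    rw [hcf z hz, mul_one]
  have heq : MemLp.toLp (fun z => conj (f z) * (g : L2 Ω) z) hg = (conj c) • (g : L2 Ω) := by
    apply Lp.ext
    filter_upwards [MemLp.coeFn_toLp hg, Lp.coeFn_smul (conj c) (g : L2 Ω),
      ae_restrict_mem Ω.isOpen.measurableSet] with z h2 h3 hz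
    rw [h2, h3, Pi.smul_apply, hcf z hz, mul_one, smul_eq_mul]
  rw [hT.extends_hankel g hg]
  unfold hankel
  rw [heq]
  have hmem : (conj c) • (g : L2 Ω) ∈ bergman Ω := (bergman Ω).smul_mem _ g.2
  have : bergmanProj Ω ((conj c) • (g : L2 Ω)) = (conj c) • (g : L2 Ω) :=
    Submodule.starProjection_eq_self_iff.2 hmem
  rw [this, sub_self]
  simp

end

end Pool.Agent.Helper76_Hankel
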