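import Mathlib

set_option autoImplicit false

open MeasureTheory Set Filter Topology Metric
open scoped ENNReal NNReal ComplexConjugate

namespace Pool.Agent.Helper76_Hankel

section General

variable {E : Type*} [NormedAddCommGroup E] [NormedSpace ℂ E]

/-- Cauchy estimate for the Fréchet derivative. -/
theorem norm_fderiv_le_of_bound {u : E → ℂ} {c : E} {r M : ℝ} (hr : 0 < r)
    (hd : DifferentiableOn ℂ u (ball c r)) (hM : ∀ z ∈ ball c r, ‖u z‖ ≤ M) :
    ‖fderiv ℂ u c‖ ≤ 2 * M / r := by
  refine Complex.norm_fderiv_le_div_of_mapsTo_ball hd ?_ hr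
  intro z hz
  rw [mem_closedBall, dist_eq_norm]
  calc ‖u z - u c‖ ≤ ‖u z‖ + ‖u c‖ := norm_sub_le _ _
    _ ≤ M + M := add_le_add (hM z hz) (hM c (mem_ball_self hr))
    _ = 2 * M := by ring

/-- Limits of holomorphic functions, uniform near each point, are holomorphic. -/
theorem differentiableOn_of_tendsto {Ω : Set E} {F : ℕ → E → ℂ} {G : E → ℂ}
    (hF : ∀ k, DifferentiableOn ℂ (F k) Ω)
    (hlim : ∀ z ∈ Ω, ∃ r > 0, ball z r ⊆ Ω ∧ TendstoUniformlyOn F G atTop (ball z r)) :
    DifferentiableOn ℂ G Ω := by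
  intro z hz
  obtain ⟨r, hr, hsub, hunif⟩ := hlim z hz
  have hr2 : 0 < r / 2 := by positivity
  have hC : UniformCauchySeqOn (fun k w => fderiv ℂ (F k) w) atTop (ball z (r / 2)) := by
    rw [Metric.uniformCauchySeqOn_iff]
    intro ε hε
    have hcau := hunif.uniformCauchySeqOn
    rw [Metric.uniformCauchySeqOn_iff] at hcau
    obtain ⟨N, hN⟩ := hcau (ε * (r / 2) / 4) (by positivity)
    refine ⟨N, fun m hm k hk w hw => ?_⟩
    have hball : ball w (r / 2) ⊆ ball z r := by
      apply ball_subset_ball'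
      rw [mem_ball] at hw
      linarith
    have hdm : DifferentiableAt ℂ (F m) w :=
      (hF m).differentiableAt (mem_of_superset (ball_mem_nhds w hr2) (hball.trans hsub))
    have hdk : DifferentiableAt ℂ (F k) w :=
      (hF k).differentiableAt (mem_of_superset (ball_mem_nhds w hr2) (hball.trans hsub))
    have h1 := norm_fderiv_le_of_bound (u := fun y => F m y - F k y) (c := w) hr2
      (((hF m).mono (hball.trans hsub)).sub ((hF k).mono (hball.trans hsub)))
      (M := ε * (r / 2) / 4) (fun y hy => by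
        have := hN m hm k hk y (hball hy)
        rw [dist_eq_norm] at this
        exact this.le)
    have h2 : fderiv ℂ (fun y => F m y - F k y) w = fderiv ℂ (F m) w - fderiv ℂ (F k) w :=
      fderiv_fun_sub hdm hdk
    rw [h2] at h1
    rw [dist_eq_norm]
    refine lt_of_le_of_lt h1 ?_
    have : 2 * (ε * (r / 2) / 4) / (r / 2) = ε / 2 := by
      field_simp
      ring
    rw [this]
    linarith
  have hex : ∀ w ∈ ball z (r / 2), ∃ L, Tendsto (fun k => fderiv ℂ (F k) w) atTop (𝓝 L) := by
    intro w hw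
    exact cauchySeq_tendsto_of_complete (hC.cauchySeq hw)
  choose! G' hG' using hex
  have hT := hC.tendstoUniformlyOn_of_tendsto hG'
  have hmain := hasFDerivAt_of_tendstoUniformlyOn (𝕜 := ℂ) isOpen_ball hT
    (f := F) (g := G) (fun k w hw => by
      have hw' : ball z r ∈ 𝓝 w := isOpen_ball.mem_nhds (ball_subset_ball (by linarith) hw)
      exact ((hF k).differentiableAt (mem_of_superset hw' hsub)).hasFDerivAt)
    (fun w hw => hunif.tendsto_at (ball_subset_ball (by linarith) hw))
    (mem_ball_self hr2)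
  exact hmain.differentiableAt.differentiableWithinAt

/-- Identity theorem in several variables. -/
theorem eqOn_zero_of_eventually {Ω : Set E} (hΩ : IsOpen Ω) (hc : IsPreconnected Ω)
    {g : E → ℂ} (hg : DifferentiableOn ℂ g Ω) {z₀ : E} (hz₀ : z₀ ∈ Ω)
    (h : g =ᶠ[𝓝 z₀] 0) : ∀ z ∈ Ω, g z = 0 := by
  set W : Set E := {z | g =ᶠ[𝓝 z] 0} with hW
  have hWo : IsOpen W := isOpen_setOfPred_eventually_nhds
  have hsub : Ω ⊆ W := by
    apply hc.subset_of_closure_inter_subset hWo ⟨z₀, hz₀, h⟩
    rintro z ⟨hzc, hzΩ⟩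
    obtain ⟨r, hr, hball⟩ := Metric.isOpen_iff.1 hΩ z hzΩ
    obtain ⟨w, hwW, hwz⟩ := Metric.mem_closure_iff.1 hzc r hr
    have hw : w ∈ ball z r := by rw [mem_ball, dist_comm]; exact hwz
    have hz0 : ∀ v ∈ ball z r, g v = 0 := by
      intro v hv
      set l : ℂ → E := fun ζ => w + ζ • (v - w) with hl
      have hlc : Continuous l := by fun_prop
      have hld : Differentiable ℂ l := by fun_prop
      set U : Set ℂ := l ⁻¹' (ball z r) with hU
      have hUo : IsOpen U := isOpen_ball.preimage hlc
      have hUconv : Convex ℝ U := by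
        intro a ha b hb s t hs ht hst
        have : l (s • a + t • b) = s • l a + t • l b := by
          simp only [hl, smul_add, add_smul]
          have h1 : (s • a) • (v - w) = s • (a • (v - w)) := smul_assoc s a (v - w)
          have h2 : (t • b) • (v - w) = t • (b • (v - w)) := smul_assoc t b (v - w)
          rw [h1, h2]
          have h3 : w = s • w + t • w := by rw [← add_smul, hst, one_smul]
          nth_rewrite 1 [h3]
          abel
        show l (s • a + t • b) ∈ ball z r
        rw [this]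
        exact (convex_ball z r) ha hb hs ht hst
      have h0U : (0 : ℂ) ∈ U := by simp [hU, hl]; exact hw
      have h1U : (1 : ℂ) ∈ U := by simp [hU, hl]; exact hv
      have hgl : DifferentiableOn ℂ (g ∘ l) U :=
        hg.comp hld.differentiableOn (fun ζ hζ => hball hζ)
      have han : AnalyticOnNhd ℂ (g ∘ l) U := hgl.analyticOnNhd hUo
      have hev : (g ∘ l) =ᶠ[𝓝 0] 0 := by
        have hl0 : Tendsto l (𝓝 0) (𝓝 w) := by
          have := hlc.tendsto 0
          simpa [hl] using this
        exact hl0.eventually hwW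
      have := han.eqOn_zero_of_preconnected_of_eventuallyEq_zero hUconv.isPreconnected h0U hev h1U
      simpa [hl] using this
    show g =ᶠ[𝓝 z] 0
    filter_upwards [ball_mem_nhds z hr] with v hv using hz0 v hv
  intro z hz
  exact (hsub hz).self_of_nhds

end General

section MeanValue

variable {n : ℕ}

/-- Multiplying all coordinates by a unimodular number preserves Lebesgue measure on `ℂⁿ`. -/
theorem measurePreserving_circle_smul (c : Circle) :
    MeasurePreserving (fun w : Fin n → ℂ => (c : ℂ) • w) volume volume := by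
  have h : ∀ i : Fin n, MeasurePreserving (fun w : ℂ => (c : ℂ) * w) volume volume := by
    intro i
    have h0 := (rotation c).measurePreserving
    have h1 : (fun w : ℂ => (c : ℂ) * w) = ⇑(rotation c) := by
      funext w; simp [rotation_apply]
    rw [h1]
    exact h0
  exact measurePreserving_pi (fun _ => volume) (fun _ => volume) h

/-- Pointwise sub-mean value inequality on a circle. -/
theorem enorm_le_circle {g : (Fin n → ℂ) → ℂ} {z : Fin n → ℂ} {r : ℝ}
    (hg : DifferentiableOn ℂ g (ball z r)) {w : Fin n → ℂ} (hw : w ∈ ball (0 : Fin n → ℂ) r) :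
    ENNReal.ofReal (2 * Real.pi) * ‖g z‖ₑ ≤
      ∫⁻ θ in Ioc (0 : ℝ) (2 * Real.pi), ‖g (z + (Circle.exp θ : ℂ) • w)‖ₑ := by
  set l : ℂ → (Fin n → ℂ) := fun ζ => z + ζ • w with hl
  have hlc : Continuous l := by fun_prop
  have hld : Differentiable ℂ l := by fun_prop
  have hmaps : MapsTo l (closedBall 0 1) (ball z r) := by
    intro ζ hζ
    simp only [hl, mem_ball, dist_eq_norm, add_sub_cancel_left, norm_smul]
    rw [mem_closedBall, dist_zero_right] at hζ
    rw [mem_ball, dist_zero_right] at hw
    calc ‖ζ‖ * ‖w‖ ≤ 1 * ‖w‖ := by gcongr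
      _ < r := by simpa using hw
  have hU : IsOpen (l ⁻¹' (ball z r)) := isOpen_ball.preimage hlc
  have hgl : DifferentiableOn ℂ (g ∘ l) (l ⁻¹' (ball z r)) :=
    hg.comp hld.differentiableOn (fun ζ hζ => hζ)
  have hcl : closure (ball (0 : ℂ) |1|) ⊆ l ⁻¹' (ball z r) := by
    rw [abs_one, closure_ball _ one_ne_zero]
    exact hmaps
  have hdc : DiffContOnCl ℂ (g ∘ l) (ball 0 |1|) :=
    (hgl.mono hcl).diffContOnCl
  have hmv := hdc.circleAverage
  rw [Real.circleAverage_def] at hmv
  have h0 : (g ∘ l) 0 = g z := by simp [hl]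
  rw [h0] at hmv
  rw [← hmv, enorm_smul]
  have hpi : (0 : ℝ) < 2 * Real.pi := by positivity
  have h1 : ‖((2 * Real.pi)⁻¹ : ℝ)‖ₑ = (ENNReal.ofReal (2 * Real.pi))⁻¹ := by
    rw [Real.enorm_eq_ofReal (by positivity), ENNReal.ofReal_inv_of_pos hpi]
  rw [h1, ← mul_assoc, ENNReal.mul_inv_cancel (by simpa using hpi) ENNReal.ofReal_ne_top, one_mul]
  rw [intervalIntegral.integral_of_le hpi.le]
  refine (enorm_integral_le_lintegral_enorm _).trans (le_of_eq ?_)
  refine lintegral_congr fun θ => ?_
  simp [hl, circleMap, Circle.coe_exp]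

/-- Sub-mean value property over balls (in integrated `L¹` form). -/
theorem enorm_mul_volume_le {g : (Fin n → ℂ) → ℂ} {z : Fin n → ℂ} {r : ℝ}
    (hg : DifferentiableOn ℂ g (ball z r)) :
    ‖g z‖ₑ * volume (ball z r) ≤ ∫⁻ w in ball z r, ‖g w‖ₑ := by
  have hpi : (0 : ℝ) < 2 * Real.pi := by positivity
  have hgc : ContinuousOn g (ball z r) := hg.continuousOn
  -- rewrite in terms of the ball centred at zero
  have hrot : ∀ θ : ℝ, ∫⁻ w in ball (0 : Fin n → ℂ) r, ‖g (z + (Circle.exp θ : ℂ) • w)‖ₑ
      = ∫⁻ w in ball z r, ‖g w‖ₑ := by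
    intro θ
    have h1 : ∫⁻ w in ball (0 : Fin n → ℂ) r, ‖g (z + (Circle.exp θ : ℂ) • w)‖ₑ
        = ∫⁻ w, (ball z r).indicator (fun w => ‖g w‖ₑ) (z + (Circle.exp θ : ℂ) • w) := by
      rw [← lintegral_indicator measurableSet_ball]
      refine lintegral_congr fun w => ?_
      have hiff : w ∈ ball (0 : Fin n → ℂ) r ↔ z + (Circle.exp θ : ℂ) • w ∈ ball z r := by
        simp only [mem_ball, dist_eq_norm, add_sub_cancel_left, norm_smul,
          Circle.norm_coe, one_mul, sub_zero]
      by_cases hw : w ∈ ball (0 : Fin n → ℂ) r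
      · rw [indicator_of_mem hw, indicator_of_mem (hiff.1 hw)]
      · rw [indicator_of_notMem hw, indicator_of_notMem (fun h => hw (hiff.2 h))]
    rw [h1, ← lintegral_indicator measurableSet_ball]
    have hmp : MeasurePreserving (fun w : Fin n → ℂ => z + (Circle.exp θ : ℂ) • w)
        volume volume :=
      (measurePreserving_add_left volume z).comp (measurePreserving_circle_smul (Circle.exp θ))
    have hemb : MeasurableEmbedding (fun w : Fin n → ℂ => z + (Circle.exp θ : ℂ) • w) := by
      have : MeasurableEmbedding (fun w : Fin n → ℂ => (Circle.exp θ : ℂ) • w) := by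
        have h := (Homeomorph.smulOfNeZero ((Circle.exp θ : Circle) : ℂ)
          (Circle.coe_ne_zero _) (α := Fin n → ℂ)).toMeasurableEquiv.measurableEmbedding
        exact h
      exact (measurableEmbedding_addLeft z).comp this
    exact hmp.lintegral_comp_emb hemb _
  have key : ∫⁻ w in ball (0 : Fin n → ℂ) r, ENNReal.ofReal (2 * Real.pi) * ‖g z‖ₑ ≤
      ∫⁻ w in ball (0 : Fin n → ℂ) r,
        ∫⁻ θ in Ioc (0 : ℝ) (2 * Real.pi), ‖g (z + (Circle.exp θ : ℂ) • w)‖ₑ := by
    refine setLIntegral_mono' measurableSet_ball fun w hw => enorm_le_circle hg hw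
  rw [lintegral_lintegral_swap] at key
  · simp only [hrot, lintegral_const, Measure.restrict_apply MeasurableSet.univ, univ_inter,
      Real.volume_Ioc, sub_zero] at key
    have hvol : volume (ball (0 : Fin n → ℂ) r) = volume (ball z r) := by
      rw [← Measure.addHaar_ball_center volume z r]
    rw [hvol] at key
    have hne : ENNReal.ofReal (2 * Real.pi) ≠ 0 := by simpa using hpi
    rw [mul_assoc, mul_comm (∫⁻ w in ball z r, ‖g w‖ₑ)] at key
    exact (ENNReal.mul_le_mul_iff_right hne ENNReal.ofReal_ne_top).1 key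
  · -- measurability
    have hcont : ContinuousOn (fun p : (Fin n → ℂ) × ℝ =>
        ‖g (z + (Circle.exp p.2 : ℂ) • p.1)‖ₑ) (ball (0 : Fin n → ℂ) r ×ˢ Ioc (0 : ℝ) (2 * Real.pi)) := by
      refine ContinuousOn.enorm ?_
      refine hgc.comp (by fun_prop) ?_
      rintro ⟨w, θ⟩ ⟨hw, -⟩
      simp only [mem_ball, dist_eq_norm, add_sub_cancel_left, norm_smul,
          Circle.norm_coe, one_mul, sub_zero] at hw ⊢
      exact hw
    have := hcont.aemeasurable (μ := (volume : Measure (Fin n → ℂ)).prod (volume : Measure ℝ))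
      (measurableSet_ball.prod measurableSet_Ioc)
    rw [← Measure.prod_restrict] at this
    exact this

/-- The constant in the local `L²` bound for holomorphic functions. -/
noncomputable def ballConst (n : ℕ) (r : ℝ) : ℝ≥0∞ :=
  (volume (ball (0 : Fin n → ℂ) r)) ^ ((1 : ℝ) - 1 / 2) / volume (ball (0 : Fin n → ℂ) r)

theorem ballConst_ne_top {r : ℝ} (hr : 0 < r) : ballConst n r ≠ ∞ := by
  unfold ballConst
  have h1 : volume (ball (0 : Fin n → ℂ) r) ≠ 0 := (measure_ball_pos volume _ hr).ne'
  have h2 : volume (ball (0 : Fin n → ℂ) r) ≠ ∞ := measure_ball_lt_top.ne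
  exact ENNReal.div_ne_top (ENNReal.rpow_ne_top_of_nonneg (by norm_num) h2) h1

/-- Pointwise bound for holomorphic functions by the local `L²` norm. -/
theorem enorm_le_ballConst_mul {g : (Fin n → ℂ) → ℂ} {z : Fin n → ℂ} {r : ℝ} (hr : 0 < r)
    (hg : DifferentiableOn ℂ g (ball z r)) :
    ‖g z‖ₑ ≤ ballConst n r * eLpNorm g 2 (volume.restrict (ball z r)) := by
  have h0 := enorm_mul_volume_le hg
  have hvol : volume (ball (0 : Fin n → ℂ) r) = volume (ball z r) := by
    rw [← Measure.addHaar_ball_center volume z r]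
  have h1 : volume (ball z r) ≠ 0 := (measure_ball_pos volume _ hr).ne'
  have h2 : volume (ball z r) ≠ ∞ := measure_ball_lt_top.ne
  have hmeas : AEStronglyMeasurable g (volume.restrict (ball z r)) :=
    hg.continuousOn.aestronglyMeasurable measurableSet_ball
  have h3 := eLpNorm_le_eLpNorm_mul_rpow_measure_univ (p := 1) (q := 2) (by norm_num) hmeas
  rw [eLpNorm_one_eq_lintegral_enorm, Measure.restrict_apply MeasurableSet.univ, univ_inter] at h3
  have h4 : ‖g z‖ₑ * volume (ball z r) ≤
      eLpNorm g 2 (volume.restrict (ball z r)) * volume (ball z r) ^ ((1 : ℝ) - 1 / 2) := by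
    refine h0.trans (h3.trans (le_of_eq ?_))
    norm_num
  unfold ballConst
  rw [hvol]
  rw [← ENNReal.le_div_iff_mul_le (Or.inl h1) (Or.inl h2)] at h4
  refine h4.trans (le_of_eq ?_)
  rw [ENNReal.div_eq_inv_mul, ENNReal.div_eq_inv_mul]
  ring

/-- Local `L²` limits of holomorphic functions are holomorphic (a.e.). -/
theorem exists_holomorphic_of_L2loc {Ω : Set (Fin n → ℂ)} (_hΩ : IsOpen Ω)
    {F : ℕ → (Fin n → ℂ) → ℂ} (hF : ∀ k, DifferentiableOn ℂ (F k) Ω) {u : (Fin n → ℂ) → ℂ}
    (hu : AEStronglyMeasurable u (volume.restrict Ω))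
    (hlim : ∀ z ∈ Ω, ∃ r > 0, ball z r ⊆ Ω ∧
      Tendsto (fun k => eLpNorm (fun w => F k w - u w) 2 (volume.restrict (ball z r)))
        atTop (𝓝 0)) :
    ∃ G : (Fin n → ℂ) → ℂ, DifferentiableOn ℂ G Ω ∧ u =ᵐ[volume.restrict Ω] G := by
  -- uniform Cauchy property on smaller balls
  have hC : ∀ z ∈ Ω, ∃ r > 0, ball z r ⊆ Ω ∧ UniformCauchySeqOn F atTop (ball z r) ∧
      Tendsto (fun k => eLpNorm (fun w => F k w - u w) 2 (volume.restrict (ball z r)))
        atTop (𝓝 0) := by
    intro z hz
    obtain ⟨r, hr, hsub, hT⟩ := hlim z hz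
    have hr2 : 0 < r / 2 := by positivity
    have hbb : ball z (r / 2) ⊆ ball z r := ball_subset_ball (by linarith)
    refine ⟨r / 2, hr2, hbb.trans hsub, ?_, ?_⟩
    · rw [Metric.uniformCauchySeqOn_iff]
      intro ε hε
      have hT' := ENNReal.Tendsto.const_mul hT (Or.inr (ballConst_ne_top (n := n) hr2))
      rw [mul_zero] at hT'
      have hev := hT'.eventually (gt_mem_nhds (ENNReal.ofReal_pos.2 (half_pos hε)))
      obtain ⟨N, hN⟩ := eventually_atTop.1 hev
      refine ⟨N, fun m hm k hk w hw => ?_⟩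
      have hball : ball w (r / 2) ⊆ ball z r := by
        apply ball_subset_ball'
        rw [mem_ball] at hw
        linarith
      have h1 := enorm_le_ballConst_mul (g := fun y => F m y - F k y) (z := w) hr2
        (((hF m).mono (hball.trans hsub)).sub ((hF k).mono (hball.trans hsub)))
      have hum : AEStronglyMeasurable u (volume.restrict (ball z r)) :=
        hu.mono_measure (Measure.restrict_mono hsub le_rfl)
      have hFm : ∀ k, AEStronglyMeasurable (F k) (volume.restrict (ball z r)) := fun k =>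
        ((hF k).mono hsub).continuousOn.aestronglyMeasurable measurableSet_ball
      have h2 : eLpNorm (fun y => F m y - F k y) 2 (volume.restrict (ball w (r / 2))) ≤
          eLpNorm (fun y => F m y - u y) 2 (volume.restrict (ball z r)) +
          eLpNorm (fun y => F k y - u y) 2 (volume.restrict (ball z r)) := by
        have h3 : eLpNorm (fun y => F m y - F k y) 2 (volume.restrict (ball w (r / 2))) ≤
            eLpNorm (fun y => F m y - F k y) 2 (volume.restrict (ball z r)) :=
          eLpNorm_mono_measure _ (Measure.restrict_mono hball le_rfl)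
        refine h3.trans ?_
        have h4 : (fun y => F m y - F k y) =
            (fun y => F m y - u y) - (fun y => F k y - u y) := by
          funext y; simp
        rw [h4]
        exact eLpNorm_sub_le ((hFm m).sub hum) ((hFm k).sub hum) (by norm_num)
      have h5 : ‖F m w - F k w‖ₑ < ENNReal.ofReal (ε / 2) + ENNReal.ofReal (ε / 2) := by
        refine lt_of_le_of_lt (h1.trans (mul_le_mul_right h2 _)) ?_
        rw [mul_add]
        exact ENNReal.add_lt_add (hN m hm) (hN k hk)
      rw [← ENNReal.ofReal_add (by positivity) (by positivity), add_halves,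
        ← ofReal_norm, ENNReal.ofReal_lt_ofReal_iff hε] at h5
      rw [dist_eq_norm]
      exact h5
    · refine tendsto_of_tendsto_of_tendsto_of_le_of_le tendsto_const_nhds hT
        (fun k => zero_le) (fun k => ?_)
      exact eLpNorm_mono_measure _ (Measure.restrict_mono hbb le_rfl)
  have hpt : ∀ z ∈ Ω, ∃ L, Tendsto (fun k => F k z) atTop (𝓝 L) := by
    intro z hz
    obtain ⟨r, hr, -, hc, -⟩ := hC z hz
    exact cauchySeq_tendsto_of_complete (hc.cauchySeq (mem_ball_self hr))
  choose! G hG using hpt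
  refine ⟨G, ?_, ?_⟩
  · refine differentiableOn_of_tendsto hF fun z hz => ?_
    obtain ⟨r, hr, hsub, hc, -⟩ := hC z hz
    exact ⟨r, hr, hsub, hc.tendstoUniformlyOn_of_tendsto fun w hw => hG w (hsub hw)⟩
  · rw [EventuallyEq, ae_restrict_iff'₀ _hΩ.measurableSet.nullMeasurableSet, ae_iff]
    refine measure_null_of_locally_null _ fun z hz => ?_
    have hzΩ : z ∈ Ω := by
      by_contra hcon
      exact hz (fun h => absurd h hcon)
    obtain ⟨r, hr, hsub, hc, hT⟩ := hC z hzΩ
    refine ⟨{a | ¬(a ∈ Ω → u a = G a)} ∩ ball z r, inter_mem_nhdsWithin _ (ball_mem_nhds z hr), ?_⟩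
    have hum : AEStronglyMeasurable u (volume.restrict (ball z r)) :=
      hu.mono_measure (Measure.restrict_mono hsub le_rfl)
    have hFm : ∀ k, AEStronglyMeasurable (F k) (volume.restrict (ball z r)) := fun k =>
      ((hF k).mono hsub).continuousOn.aestronglyMeasurable measurableSet_ball
    have hTm := tendstoInMeasure_of_tendsto_eLpNorm (p := 2) (f := F) (g := u)
      (μ := volume.restrict (ball z r)) (l := atTop) (by norm_num) hFm hum (by
        exact hT)
    obtain ⟨ns, hns, hae⟩ := hTm.exists_seq_tendsto_ae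
    have hae2 : ∀ᵐ x ∂(volume.restrict (ball z r)), u x = G x := by
      filter_upwards [hae, ae_restrict_mem measurableSet_ball] with x hx hxb
      exact tendsto_nhds_unique hx ((hG x (hsub hxb)).comp hns.tendsto_atTop)
    rw [ae_restrict_iff' measurableSet_ball, ae_iff] at hae2
    refine measure_mono_null ?_ hae2
    rintro x ⟨hx1, hx2⟩
    simp only [mem_ofPred_eq, Classical.not_imp] at hx1 ⊢
    exact ⟨hx2, hx1.2⟩

end MeanValue

end Pool.Agent.Helper76_Hankel
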