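import Pool.Agent.Helper76_Hankel.Basic

set_option autoImplicit false

open MeasureTheory Set Filter Topology Metric TopologicalSpace
open scoped ENNReal NNReal ComplexConjugate InnerProductSpace

namespace Pool.Agent.Helper76_Hankel

noncomputable section

/-- Normalised Haar measure on `ℝ / ℤ`. -/
local instance instMeasureSpaceUAC'' : MeasureSpace UnitAddCircle := ⟨AddCircle.haarAddCircle⟩

local instance instHaarUAC'' : Measure.IsAddHaarMeasure (volume : Measure UnitAddCircle) :=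
  inferInstanceAs (Measure.IsAddHaarMeasure AddCircle.haarAddCircle)

local instance instProbUAC'' : IsProbabilityMeasure (volume : Measure UnitAddCircle) :=
  inferInstanceAs (IsProbabilityMeasure AddCircle.haarAddCircle)

variable {n : ℕ} {Ω : Opens (Fin n → ℂ)} {f : (Fin n → ℂ) → ℂ} {T : bergman Ω →L[ℂ] L2 Ω}

theorem sq_eLpNorm (μ : Measure (Fin n → ℂ)) (u : (Fin n → ℂ) → ℂ) :
    eLpNorm u 2 μ ^ 2 = ∫⁻ z, ‖u z‖ₑ ^ 2 ∂μ := by
  have := eLpNorm_nnreal_pow_eq_lintegral (f := u) (μ := μ) (p := 2) (by norm_num)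
  simpa using this

theorem eLpNorm_wpart_le (hI : Inv (Ω : Set (Fin n → ℂ))) (γ : Fin n → ℤ)
    {u : (Fin n → ℂ) → ℂ} (hu : AEStronglyMeasurable u (mu Ω)) :
    eLpNorm (wpart γ u) 2 (mu Ω) ≤ eLpNorm u 2 (mu Ω) := by
  have h := lintegral_wpart_le hI Ω.isOpen.measurableSet γ hu
  rw [← sq_eLpNorm, ← sq_eLpNorm] at h
  exact (ENNReal.pow_le_pow_left_iff two_ne_zero).1 h

theorem memLp_wpart (hI : Inv (Ω : Set (Fin n → ℂ))) (γ : Fin n → ℤ)
    {u : (Fin n → ℂ) → ℂ} (hu : MemLp u 2 (mu Ω)) : MemLp (wpart γ u) 2 (mu Ω) :=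
  ⟨aestronglyMeasurable_wpart hI Ω.isOpen.measurableSet γ hu.1,
    (eLpNorm_wpart_le hI γ hu.1).trans_lt hu.2⟩

theorem integral_wpart_le (hI : Inv (Ω : Set (Fin n → ℂ))) (γ : Fin n → ℤ)
    {u : (Fin n → ℂ) → ℂ} (hu : MemLp u 2 (mu Ω)) :
    ∫ z in (Ω : Set (Fin n → ℂ)), ‖wpart γ u z‖ ^ 2 ≤
      ∫ z in (Ω : Set (Fin n → ℂ)), ‖u z‖ ^ 2 := by
  rw [← norm_toLp_sq (memLp_wpart hI γ hu), ← norm_toLp_sq hu]
  have h1 : ‖(memLp_wpart hI γ hu).toLp _‖ ≤ ‖hu.toLp u‖ := by
    rw [Lp.norm_toLp, Lp.norm_toLp]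
    exact ENNReal.toReal_mono hu.2.ne (eLpNorm_wpart_le hI γ hu.1)
  gcongr

theorem orbit_ball (hI : Inv (Ω : Set (Fin n → ℂ))) {z : Fin n → ℂ} {r : ℝ}
    (h : ball z r ⊆ Ω) (t : UnitAddTorus (Fin n)) : ball (rot t z) r ⊆ Ω := by
  intro y hy
  have h1 : rot (-t) y ∈ ball z r := by
    rw [mem_ball] at hy ⊢
    rw [← dist_rot t, ← rot_add, add_neg_cancel, rot_zero]
    exact hy
  have h2 := hI t _ (h h1)
  rwa [← rot_add, add_neg_cancel, rot_zero] at h2

/-- Two holomorphic functions that are not identically zero have a common non-zero. -/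
theorem exists_common_ne (hc : IsPreconnected (Ω : Set (Fin n → ℂ))) {g h : (Fin n → ℂ) → ℂ}
    (hg : DifferentiableOn ℂ g Ω) (hh : DifferentiableOn ℂ h Ω)
    (hg0 : ∃ z ∈ Ω, g z ≠ 0) (hh0 : ∃ z ∈ Ω, h z ≠ 0) : ∃ z ∈ Ω, g z ≠ 0 ∧ h z ≠ 0 := by
  by_contra hcon
  push Not at hcon
  obtain ⟨z, hz, hgz⟩ := hg0
  have hopen : IsOpen ((Ω : Set (Fin n → ℂ)) ∩ g ⁻¹' {0}ᶜ) :=
    hg.continuousOn.isOpen_inter_preimage Ω.isOpen isOpen_compl_singleton
  have h0 := eqOn_zero_of_eventually Ω.isOpen hc hh hz (by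
    filter_upwards [hopen.mem_nhds ⟨hz, hgz⟩] with w hw
    exact hcon w hw.1 hw.2)
  obtain ⟨w, hw, hhw⟩ := hh0
  exact hhw (h0 w hw)

/-- The set of exponents is stable under adding `β` if the `β`-part of `f` is nonzero. -/
theorem shift (hI : Inv (Ω : Set (Fin n → ℂ))) (hc : IsPreconnected (Ω : Set (Fin n → ℂ)))
    (hf : DifferentiableOn ℂ f Ω) (hT : IsHilbertSchmidtHankel Ω f T) {β γ : Fin n → ℤ}
    (hβ : ∃ z ∈ Ω, wpart β f z ≠ 0) {e : (Fin n → ℂ) → ℂ} (he : WFun Ω γ e) :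
    ∃ e', WFun Ω (γ + β) e' := by
  have hhd : DifferentiableOn ℂ (wpart β f) Ω := differentiableOn_wpart hI Ω.isOpen β hf
  obtain ⟨z₀, hz₀, hhz, hez⟩ := exists_common_ne hc hhd he.diff hβ he.exists_ne
  obtain ⟨r, hr, hball⟩ := Metric.isOpen_iff.1 Ω.isOpen z₀ hz₀
  obtain ⟨M, hM⟩ := (isCompact_univ (X := UnitAddTorus (Fin n))).exists_bound_of_continuousOn
    (continuous_orbit hI hf.continuousOn hz₀).continuousOn
  have hM' : ∀ t, ‖f (rot t z₀)‖ ≤ M := fun t => hM t (mem_univ t)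
  obtain ⟨x, hx, hxg⟩ := mem_closure_iff_seq_limit.1 (hT.dense_domain he.toBergman)
  have ht1 : Tendsto (fun k => ‖(he.toBergman : L2 Ω) - (x k : L2 Ω)‖ₑ) atTop (𝓝 0) := by
    have h1 : Tendsto (fun k => (x k : L2 Ω)) atTop (𝓝 (he.toBergman : L2 Ω)) :=
      (continuous_subtype_val.tendsto _).comp hxg
    have h2 := tendsto_iff_edist_tendsto_0.1 h1
    simpa only [edist_comm _ (he.toBergman : L2 Ω), edist_eq_enorm_sub] using h2
  have ht2 : Tendsto (fun k => ENNReal.ofReal M *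
      (ballConst n r * ‖(he.toBergman : L2 Ω) - (x k : L2 Ω)‖ₑ)) atTop (𝓝 0) := by
    have h1 := ENNReal.Tendsto.const_mul ht1 (Or.inr (ballConst_ne_top (n := n) hr))
    have h2 := ENNReal.Tendsto.const_mul h1 (Or.inr (ENNReal.ofReal_ne_top (r := M)))
    simpa using h2
  have hpos : 0 < ‖wpart β f z₀ * e z₀‖ₑ := by
    rw [enorm_pos]
    exact mul_ne_zero hhz hez
  obtain ⟨k, hk⟩ := (ht2.eventually (gt_mem_nhds hpos)).exists
  obtain ⟨g, hg, hxkg⟩ := (x k).2
  set F : (Fin n → ℂ) → ℂ := fun z => f z * g z with hF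
  have hFd : DifferentiableOn ℂ F Ω := hf.mul hg
  have hFL : MemLp F 2 (mu Ω) := by
    refine MemLp.congr_norm (hx k) (hFd.continuousOn.aestronglyMeasurable Ω.isOpen.measurableSet) ?_
    filter_upwards [hxkg] with z hz
    rw [norm_mul, RCLike.norm_conj, hz, hF, norm_mul]
  have hW : wpart (γ + β) F z₀ ≠ 0 := by
    intro h0
    have h1 : wpart (γ + β) (fun z => f z * (e z - g z)) z₀ = wpart β f z₀ * e z₀ := by
      have h2 : (fun z => f z * (e z - g z)) = fun z => (f z * e z) - F z := by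
        funext z; simp only [hF]; ring
      have hfe : ContinuousOn (fun z => f z * e z) Ω :=
        hf.continuousOn.mul he.diff.continuousOn
      rw [h2, wpart_sub hI hfe hFd.continuousOn hz₀, h0, sub_zero]
      exact wpart_mul he.weight hz₀
    have h3 : ‖wpart (γ + β) (fun z => f z * (e z - g z)) z₀‖ₑ ≤ ENNReal.ofReal M *
        (ballConst n r * ‖(he.toBergman : L2 Ω) - (x k : L2 Ω)‖ₑ) := by
      unfold wpart
      refine (enorm_integral_le_lintegral_enorm _).trans ?_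
      have h4 : ∀ t : UnitAddTorus (Fin n),
          ‖UnitAddTorus.mFourier (-(γ + β)) t * (f (rot t z₀) * (e (rot t z₀) - g (rot t z₀)))‖ₑ
          ≤ ENNReal.ofReal M *
            (ballConst n r * ‖(he.toBergman : L2 Ω) - (x k : L2 Ω)‖ₑ) := by
        intro t
        rw [enorm_mul, enorm_mul]
        have h5 : ‖UnitAddTorus.mFourier (-(γ + β)) t‖ₑ = 1 := by
          rw [← ofReal_norm, norm_mFourier_apply]; simp
        rw [h5, one_mul]
        refine mul_le_mul' ?_ ?_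
        · rw [← ofReal_norm]
          exact ENNReal.ofReal_le_ofReal (hM' t)
        · have hb := orbit_ball hI hball t
          refine (enorm_le_ballConst_mul (g := fun z => e z - g z) hr
            ((he.diff.mono hb).sub (hg.mono hb))).trans ?_
          refine mul_le_mul_right ?_ _
          refine (eLpNorm_mono_measure _ (Measure.restrict_mono hb le_rfl)).trans (le_of_eq ?_)
          rw [Lp.enorm_def]
          refine eLpNorm_congr_ae ?_
          filter_upwards [Lp.coeFn_sub (he.toBergman : L2 Ω) (x k : L2 Ω), hxkg,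
            he.memLp.coeFn_toLp] with z h6 h7 h8
          rw [h6, Pi.sub_apply, h7]
          have h9 : (he.toBergman : L2 Ω) z = e z := h8
          rw [h9]
      refine (lintegral_mono h4).trans (le_of_eq ?_)
      simp
    rw [h1] at h3
    exact absurd hk (not_lt.2 h3)
  exact exists_wFun (differentiableOn_wpart hI Ω.isOpen _ hFd) (hasWeight_wpart _ _ _)
    (memLp_wpart hI _ hFL) ⟨z₀, hz₀, hW⟩

theorem weight_mul {β γ : Fin n → ℤ} {g e : (Fin n → ℂ) → ℂ}
    (hg : HasWeight (Ω : Set (Fin n → ℂ)) β g) (he : HasWeight (Ω : Set (Fin n → ℂ)) γ e) :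
    HasWeight (Ω : Set (Fin n → ℂ)) (γ + β) (fun z => g z * e z) := by
  intro z hz t
  simp only
  rw [hg z hz t, he z hz t, UnitAddTorus.mFourier_add]
  ring

/-- `h e` is a multiple of the unit weight function of weight `γ + β`. -/
theorem mul_eq_const (hI : Inv (Ω : Set (Fin n → ℂ))) (hc : IsPreconnected (Ω : Set (Fin n → ℂ)))
    (hf : DifferentiableOn ℂ f Ω) {β γ : Fin n → ℤ} {e e' : (Fin n → ℂ) → ℂ} (he : WFun Ω γ e)
    (he' : WFun Ω (γ + β) e') :
    ∃ c : ℂ, (∀ z ∈ Ω, wpart β f z * e z = c * e' z) ∧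
      ‖c‖ ^ 2 = ∫ z in (Ω : Set (Fin n → ℂ)), ‖wpart β f z * e z‖ ^ 2 := by
  have hhd : DifferentiableOn ℂ (wpart β f) Ω := differentiableOn_wpart hI Ω.isOpen β hf
  obtain ⟨c, hcc⟩ := he'.exists_const hc (hhd.mul he.diff)
    (weight_mul (hasWeight_wpart _ β f) he.weight)
  refine ⟨c, hcc, ?_⟩
  rw [setIntegral_congr_fun (g := fun z => ‖c‖ ^ 2 * ‖e' z‖ ^ 2) Ω.isOpen.measurableSet
    (fun z hz => by
      have h1 : wpart β f z * e z = c * e' z := hcc z hz
      simp only [h1, norm_mul, mul_pow])]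
  rw [integral_const_mul, he'.norm_one, mul_one]

theorem memLp_mul (hI : Inv (Ω : Set (Fin n → ℂ))) (hc : IsPreconnected (Ω : Set (Fin n → ℂ)))
    (hf : DifferentiableOn ℂ f Ω) {β γ : Fin n → ℤ} {e e' : (Fin n → ℂ) → ℂ} (he : WFun Ω γ e)
    (he' : WFun Ω (γ + β) e') : MemLp (fun z => wpart β f z * e z) 2 (mu Ω) := by
  obtain ⟨c, hcc, -⟩ := mul_eq_const hI hc hf he he'
  refine MemLp.ae_eq ?_ (he'.memLp.const_mul c)
  filter_upwards [ae_restrict_mem Ω.isOpen.measurableSet] with z hz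
  exact (hcc z hz).symm

/-- The key lower bound for `‖T e‖²`. -/
theorem key_ineq (hI : Inv (Ω : Set (Fin n → ℂ))) (hc : IsPreconnected (Ω : Set (Fin n → ℂ)))
    (hf : DifferentiableOn ℂ f Ω) (hT : IsHilbertSchmidtHankel Ω f T) {β γ : Fin n → ℤ}
    (hβ : ∃ z ∈ Ω, wpart β f z ≠ 0) {e : (Fin n → ℂ) → ℂ} (he : WFun Ω γ e) :
    ((¬ ∃ e', WFun Ω (γ - β) e') →
      ∫ z in (Ω : Set (Fin n → ℂ)), ‖wpart β f z * e z‖ ^ 2 ≤ ‖T he.toBergman‖ ^ 2) ∧
    (∀ e', WFun Ω (γ - β) e' →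
      (∫ z in (Ω : Set (Fin n → ℂ)), ‖wpart β f z * e z‖ ^ 2) -
      (∫ z in (Ω : Set (Fin n → ℂ)), ‖wpart β f z * e' z‖ ^ 2) ≤ ‖T he.toBergman‖ ^ 2) := by
  set h : (Fin n → ℂ) → ℂ := wpart β f with hh
  have hhd : DifferentiableOn ℂ h Ω := differentiableOn_wpart hI Ω.isOpen β hf
  obtain ⟨e₁, he₁⟩ := shift hI hc hf hT hβ he
  have heL : MemLp (fun z => h z * e z) 2 (mu Ω) := memLp_mul hI hc hf he he₁
  obtain ⟨G, hG, hGe⟩ := hT.exists_rep hf he.toBergman
  -- the continuous representative of `T e`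
  set τ : (Fin n → ℂ) → ℂ := fun z => conj (f z) * e z - G z with hτ
  have hfe : ContinuousOn (fun z => conj (f z) * e z) Ω :=
    (Complex.continuous_conj.comp_continuousOn hf.continuousOn).mul he.diff.continuousOn
  have hτT : τ =ᵐ[mu Ω] (T he.toBergman : L2 Ω) := by
    filter_upwards [hGe, he.memLp.coeFn_toLp] with z h1 h2
    have h3 : (he.toBergman : L2 Ω) z = e z := h2
    simp only [hτ]
    rw [← h1, h3]; ring
  have hτL : MemLp τ 2 (mu Ω) := MemLp.ae_eq hτT.symm (Lp.memLp _)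
  have hτnorm : ∫ z in (Ω : Set (Fin n → ℂ)), ‖τ z‖ ^ 2 = ‖T he.toBergman‖ ^ 2 := by
    rw [← norm_toLp_sq hτL]
    have : hτL.toLp τ = T he.toBergman := by
      apply Lp.ext
      exact hτL.coeFn_toLp.trans hτT
    rw [this]
  -- the weight part
  set w : (Fin n → ℂ) → ℂ := wpart (γ - β) τ with hw
  set G' : (Fin n → ℂ) → ℂ := wpart (γ - β) G with hG'
  have hG'd : DifferentiableOn ℂ G' Ω := differentiableOn_wpart hI Ω.isOpen _ hG
  have hwL : MemLp w 2 (mu Ω) := memLp_wpart hI _ hτL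
  have hwle : ∫ z in (Ω : Set (Fin n → ℂ)), ‖w z‖ ^ 2 ≤ ‖T he.toBergman‖ ^ 2 :=
    (integral_wpart_le hI _ hτL).trans hτnorm.le
  have hweq : ∀ z ∈ Ω, w z = conj (h z) * e z - G' z := by
    intro z hz
    rw [hw, hτ, wpart_sub hI hfe hG.continuousOn hz, wpart_conj_mul he.weight hz]
  have hconjL : MemLp (fun z => conj (h z) * e z) 2 (mu Ω) := by
    refine MemLp.congr_norm heL ?_ ?_
    · exact ((Complex.continuous_conj.comp_continuousOn hhd.continuousOn).mul
        he.diff.continuousOn).aestronglyMeasurable Ω.isOpen.measurableSet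
    · exact ae_of_all _ fun z => by simp only [norm_mul, RCLike.norm_conj]
  have hG'L : MemLp G' 2 (mu Ω) := by
    refine MemLp.ae_eq ?_ (hconjL.sub hwL)
    filter_upwards [ae_restrict_mem Ω.isOpen.measurableSet] with z hz
    rw [Pi.sub_apply, hweq z hz]; ring
  constructor
  · intro hno
    have hG0 : ∀ z ∈ Ω, G' z = 0 := by
      by_contra hcon
      push Not at hcon
      exact hno (exists_wFun hG'd (hasWeight_wpart _ _ _) hG'L hcon)
    refine le_trans (le_of_eq ?_) hwle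
    refine setIntegral_congr_fun Ω.isOpen.measurableSet fun z hz => ?_
    rw [hweq z hz, hG0 z hz, sub_zero, norm_mul, norm_mul, RCLike.norm_conj]
  · intro e' he'
    obtain ⟨c, hcG⟩ := he'.exists_const hc hG'd (hasWeight_wpart _ _ _)
    have he₂ : WFun Ω ((γ - β) + β) e := by rw [sub_add_cancel]; exact he
    obtain ⟨c', hcc', hc'n⟩ := mul_eq_const hI hc hf he' he₂
    -- orthogonality
    have horth : ∫ z in (Ω : Set (Fin n → ℂ)), w z * conj (e' z) = 0 := by
      rw [hw, integral_wpart_mul hI Ω.isOpen.measurableSet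
        (integrable_mul_conj hτL he'.memLp) he'.weight]
      rw [← inner_toLp he'.memLp hτL]
      have : hτL.toLp τ = T he.toBergman := by
        apply Lp.ext
        exact hτL.coeFn_toLp.trans hτT
      rw [this]
      exact hT.inner_eq_zero he.toBergman he'.toBergman
    have he'1 : ∫ z in (Ω : Set (Fin n → ℂ)), e' z * conj (e' z) = 1 := by
      rw [← inner_toLp he'.memLp he'.memLp, inner_self_eq_norm_sq_to_K, ← RCLike.ofReal_pow,
        norm_toLp_sq, he'.norm_one]
      simp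
    have he1 : ∫ z in (Ω : Set (Fin n → ℂ)), e z * conj (e z) = 1 := by
      rw [← inner_toLp he.memLp he.memLp, inner_self_eq_norm_sq_to_K, ← RCLike.ofReal_pow,
        norm_toLp_sq, he.norm_one]
      simp
    have hcc : c = conj c' := by
      have h1 : ∫ z in (Ω : Set (Fin n → ℂ)), (conj (h z) * e z) * conj (e' z) = c := by
        have h2 : ∫ z in (Ω : Set (Fin n → ℂ)), (conj (h z) * e z) * conj (e' z) =
            ∫ z in (Ω : Set (Fin n → ℂ)), (w z * conj (e' z) + c * (e' z * conj (e' z))) := by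
          refine setIntegral_congr_fun Ω.isOpen.measurableSet fun z hz => ?_
          rw [hweq z hz, hcG z hz]; ring
        rw [h2, integral_add (integrable_mul_conj hwL he'.memLp)
          ((integrable_mul_conj he'.memLp he'.memLp).const_mul c), horth,
          integral_const_mul, he'1]
        ring
      have h3 : ∫ z in (Ω : Set (Fin n → ℂ)), (conj (h z) * e z) * conj (e' z) = conj c' := by
        have h4 : ∫ z in (Ω : Set (Fin n → ℂ)), (conj (h z) * e z) * conj (e' z) =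
            ∫ z in (Ω : Set (Fin n → ℂ)), conj c' * (e z * conj (e z)) := by
          refine setIntegral_congr_fun Ω.isOpen.measurableSet fun z hz => ?_
          have h5 : h z * e' z = c' * e z := hcc' z hz
          have h6 : conj (h z) * conj (e' z) = conj c' * conj (e z) := by
            rw [← map_mul, ← map_mul, h5]
          linear_combination (e z) * h6
        rw [h4, integral_const_mul, he1, mul_one]
      rw [← h1, h3]
    -- Pythagoras
    have hX : hconjL.toLp _ = hwL.toLp w + c • he'.memLp.toLp e' := by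
      apply Lp.ext
      filter_upwards [hconjL.coeFn_toLp, Lp.coeFn_add (hwL.toLp w) (c • he'.memLp.toLp e'),
        hwL.coeFn_toLp, Lp.coeFn_smul c (he'.memLp.toLp e'), he'.memLp.coeFn_toLp,
        ae_restrict_mem Ω.isOpen.measurableSet] with z h1 h2 h3 h4 h5 hz
      rw [h1, h2, Pi.add_apply, h3, h4, Pi.smul_apply, h5, hweq z hz, hcG z hz, smul_eq_mul]
      ring
    have horth' : ⟪hwL.toLp w, c • he'.memLp.toLp e'⟫_ℂ = 0 := by
      rw [inner_smul_right]
      have h1 : ⟪he'.memLp.toLp e', hwL.toLp w⟫_ℂ = 0 := by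
        rw [inner_toLp he'.memLp hwL, horth]
      rw [← inner_conj_symm, h1]
      simp
    have hpyth := norm_add_sq_eq_norm_sq_add_norm_sq_of_inner_eq_zero _ _ horth'
    rw [← hX, ← sq, ← sq, ← sq, norm_smul, mul_pow, norm_toLp_sq, norm_toLp_sq, norm_toLp_sq,
      he'.norm_one, mul_one] at hpyth
    have h7 : ‖c‖ ^ 2 = ∫ z in (Ω : Set (Fin n → ℂ)), ‖h z * e' z‖ ^ 2 := by
      rw [hcc, RCLike.norm_conj, hc'n]
    have h8 : ∫ z in (Ω : Set (Fin n → ℂ)), ‖conj (h z) * e z‖ ^ 2 =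
        ∫ z in (Ω : Set (Fin n → ℂ)), ‖h z * e z‖ ^ 2 := by
      simp only [norm_mul, RCLike.norm_conj]
    rw [h8, h7] at hpyth
    linarith

end

end Pool.Agent.Helper76_Hankel
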