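import Pool.Agent.Helper76_Hankel.Holo

set_option autoImplicit false

open MeasureTheory Set Filter Topology Metric UnitAddTorus
open scoped ENNReal NNReal ComplexConjugate

namespace Pool.Agent.Helper76_Hankel

noncomputable section

section ParamIntegral

variable {E : Type*} [NormedAddCommGroup E] [NormedSpace ℂ E] [ProperSpace E]
  {T : Type*} [TopologicalSpace T] [CompactSpace T] [MeasurableSpace T] [BorelSpace T]
  [SecondCountableTopology T]

/-- The parameter integral of a continuous family of holomorphic functions is holomorphic. -/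
theorem differentiableOn_integral (ν : Measure T) [IsFiniteMeasure ν] {Ω : Set E} (hΩ : IsOpen Ω)
    {u : E → T → ℂ} (hu : ContinuousOn (Function.uncurry u) (Ω ×ˢ univ))
    (hd : ∀ t, DifferentiableOn ℂ (fun z => u z t) Ω) :
    DifferentiableOn ℂ (fun z => ∫ t, u z t ∂ν) Ω := by
  intro z₀ hz₀
  obtain ⟨R, hR, hRsub⟩ := Metric.isOpen_iff.1 hΩ z₀ hz₀
  set r : ℝ := R / 4 with hr
  have hr0 : 0 < r := by positivity
  have hcb : closedBall z₀ (2 * r) ⊆ Ω := by
    refine (closedBall_subset_ball ?_).trans hRsub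
    rw [hr]; linarith
  have hK : IsCompact ((closedBall z₀ (2 * r)) ×ˢ (univ : Set T)) :=
    (isCompact_closedBall z₀ (2 * r)).prod isCompact_univ
  obtain ⟨M, hM⟩ := hK.exists_bound_of_continuousOn (hu.mono (prod_mono hcb Subset.rfl))
  have hM' : ∀ z ∈ closedBall z₀ (2 * r), ∀ t, ‖u z t‖ ≤ M := fun z hz t => hM (z, t) ⟨hz, mem_univ t⟩
  have hsec : ∀ z ∈ Ω, Continuous (u z) := by
    intro z hz
    have h1 : ContinuousOn (fun t : T => (z, t)) univ := by fun_prop
    have := hu.comp h1 (fun t _ => ⟨hz, mem_univ t⟩)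
    rw [continuousOn_univ] at this
    exact this
  have hbd : ∀ t, ∀ z ∈ ball z₀ r, ‖fderiv ℂ (fun z => u z t) z‖ ≤ 2 * M / r := by
    intro t z hz
    have hsub : ball z r ⊆ closedBall z₀ (2 * r) := by
      intro y hy
      rw [mem_closedBall]
      rw [mem_ball] at hy hz
      have := dist_triangle y z z₀
      linarith
    exact norm_fderiv_le_of_bound hr0 ((hd t).mono (hsub.trans hcb))
      (fun y hy => hM' y (hsub hy) t)
  have hcont : Continuous (fun t => fderiv ℂ (fun z => u z t) z₀) := by
    rw [continuous_iff_continuousAt]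
    intro t₀
    rw [ContinuousAt, Metric.tendsto_nhds]
    intro ε hε
    have hu' : ContinuousOn (Function.uncurry (fun (t : T) (z : E) => u z t))
        ((univ : Set T) ×ˢ closedBall z₀ (2 * r)) := by
      have h2 : ContinuousOn (fun p : T × E => (p.2, p.1)) ((univ : Set T) ×ˢ closedBall z₀ (2 * r)) := by
        fun_prop
      exact hu.comp h2 (fun p hp => ⟨hcb hp.2, mem_univ _⟩)
    obtain ⟨v, hv, hv'⟩ := IsCompact.mem_uniformity_of_prod
      (isCompact_closedBall z₀ (2 * r)) hu' (mem_univ t₀)
      (Metric.dist_mem_uniformity (show 0 < ε * r / 4 by positivity))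
    rw [nhdsWithin_univ] at hv
    filter_upwards [hv] with t ht
    rw [dist_eq_norm]
    have hdt : ∀ t, DifferentiableAt ℂ (fun z => u z t) z₀ := fun t =>
      (hd t).differentiableAt (hΩ.mem_nhds hz₀)
    have h3 : fderiv ℂ (fun z => u z t) z₀ - fderiv ℂ (fun z => u z t₀) z₀ =
        fderiv ℂ (fun z => u z t - u z t₀) z₀ := (fderiv_fun_sub (hdt t) (hdt t₀)).symm
    rw [h3]
    have hsub : ball z₀ r ⊆ closedBall z₀ (2 * r) :=
      (ball_subset_ball (by linarith)).trans ball_subset_closedBall
    have h4 := norm_fderiv_le_of_bound (u := fun z => u z t - u z t₀) (c := z₀) (M := ε * r / 4) hr0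
      (((hd t).sub (hd t₀)).mono (hsub.trans hcb))
      (fun y hy => by
        have := hv' t ht y (hsub hy)
        simp only [mem_ofPred_eq, dist_eq_norm] at this
        exact this.le)
    refine lt_of_le_of_lt h4 ?_
    have : 2 * (ε * r / 4) / r = ε / 2 := by field_simp; ring
    rw [this]; linarith
  have hmain := hasFDerivAt_integral_of_dominated_of_fderiv_le (𝕜 := ℂ) (μ := ν)
    (F := u) (F' := fun z t => fderiv ℂ (fun z => u z t) z) (x₀ := z₀) (bound := fun _ => 2 * M / r)
    (ball_mem_nhds z₀ hr0)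
    (by
      filter_upwards [hΩ.mem_nhds hz₀] with z hz
      exact (hsec z hz).aestronglyMeasurable)
    (by
      refine Integrable.of_bound (hsec z₀ hz₀).aestronglyMeasurable M ?_
      exact ae_of_all _ (fun t => hM' z₀ (mem_closedBall_self (by positivity)) t))
    hcont.aestronglyMeasurable
    (ae_of_all _ (fun t z hz => hbd t z hz))
    (integrable_const _)
    (ae_of_all _ (fun t z hz => by
      have hz' : z ∈ Ω := hcb ((ball_subset_ball (by linarith)).trans ball_subset_closedBall hz)
      exact ((hd t).differentiableAt (hΩ.mem_nhds hz')).hasFDerivAt))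
  exact hmain.differentiableAt.differentiableWithinAt

end ParamIntegral

/-- Normalised Haar measure on `ℝ / ℤ`. -/
local instance instMeasureSpaceUAC : MeasureSpace UnitAddCircle := ⟨AddCircle.haarAddCircle⟩

local instance instHaarUAC : Measure.IsAddHaarMeasure (volume : Measure UnitAddCircle) :=
  inferInstanceAs (Measure.IsAddHaarMeasure AddCircle.haarAddCircle)

local instance instProbUAC : IsProbabilityMeasure (volume : Measure UnitAddCircle) :=
  inferInstanceAs (IsProbabilityMeasure AddCircle.haarAddCircle)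

section Rot

variable {n : ℕ}

/-- Coordinatewise rotation of `ℂⁿ` by an element of the torus. -/
def rot (t : UnitAddTorus (Fin n)) (z : Fin n → ℂ) : Fin n → ℂ :=
  fun j => (AddCircle.toCircle (t j) : ℂ) * z j

theorem rot_zero (z : Fin n → ℂ) : rot 0 z = z := by
  funext j; simp [rot]

theorem rot_add (s t : UnitAddTorus (Fin n)) (z : Fin n → ℂ) : rot (s + t) z = rot s (rot t z) := by
  funext j; simp [rot, AddCircle.toCircle_add, mul_assoc]

theorem continuous_rot : Continuous (fun p : (Fin n → ℂ) × UnitAddTorus (Fin n) => rot p.2 p.1) := by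
  refine continuous_pi fun j => ?_
  unfold rot
  have h1 : Continuous (fun p : (Fin n → ℂ) × UnitAddTorus (Fin n) =>
      ((AddCircle.toCircle (p.2 j) : Circle) : ℂ)) :=
    continuous_subtype_val.comp
      (AddCircle.continuous_toCircle.comp ((continuous_apply j).comp continuous_snd))
  exact h1.mul ((continuous_apply j).comp continuous_fst)

theorem norm_rot (t : UnitAddTorus (Fin n)) (z : Fin n → ℂ) : ‖rot t z‖ = ‖z‖ := by
  apply le_antisymm
  · rw [pi_norm_le_iff_of_nonneg (norm_nonneg _)]
    intro j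
    simp only [rot, norm_mul, Circle.norm_coe, one_mul]
    exact norm_le_pi_norm z j
  · rw [pi_norm_le_iff_of_nonneg (norm_nonneg _)]
    intro j
    have := norm_le_pi_norm (rot t z) j
    simpa only [rot, norm_mul, Circle.norm_coe, one_mul] using this

theorem rot_sub (t : UnitAddTorus (Fin n)) (z w : Fin n → ℂ) : rot t (z - w) = rot t z - rot t w := by
  funext j; simp [rot, mul_sub]

theorem dist_rot (t : UnitAddTorus (Fin n)) (z w : Fin n → ℂ) :
    dist (rot t z) (rot t w) = dist z w := by
  rw [dist_eq_norm, dist_eq_norm, ← rot_sub, norm_rot]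

theorem differentiable_rot (t : UnitAddTorus (Fin n)) : Differentiable ℂ (rot t) := by
  unfold rot
  fun_prop

theorem measurePreserving_rot (t : UnitAddTorus (Fin n)) :
    MeasurePreserving (rot t) volume volume := by
  have h : ∀ i : Fin n, MeasurePreserving (fun w : ℂ => (AddCircle.toCircle (t i) : ℂ) * w)
      volume volume := by
    intro i
    have h0 := (rotation (AddCircle.toCircle (t i))).measurePreserving
    have h1 : (fun w : ℂ => (AddCircle.toCircle (t i) : ℂ) * w) =
        ⇑(rotation (AddCircle.toCircle (t i))) := by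
      funext w; simp [rotation_apply]
    rw [h1]
    exact h0
  exact measurePreserving_pi (fun _ => volume) (fun _ => volume) h

/-- Torus-invariance of a set. -/
def Inv (Ω : Set (Fin n → ℂ)) : Prop := ∀ t : UnitAddTorus (Fin n), ∀ z ∈ Ω, rot t z ∈ Ω

theorem Inv.preimage {Ω : Set (Fin n → ℂ)} (h : Inv Ω) (t : UnitAddTorus (Fin n)) :
    rot t ⁻¹' Ω = Ω := by
  ext z
  constructor
  · intro hz
    have := h (-t) _ hz
    rwa [← rot_add, neg_add_cancel, rot_zero] at this
  · exact fun hz => h t z hz

theorem Inv.measurePreserving {Ω : Set (Fin n → ℂ)} (h : Inv Ω) (hm : MeasurableSet Ω)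
    (t : UnitAddTorus (Fin n)) :
    MeasurePreserving (rot t) (volume.restrict Ω) (volume.restrict Ω) := by
  have := (measurePreserving_rot t).restrict_preimage hm
  rwa [h.preimage t] at this

theorem Inv.measurePreserving_prod {Ω : Set (Fin n → ℂ)} (h : Inv Ω) (hm : MeasurableSet Ω) :
    MeasurePreserving (fun p : (Fin n → ℂ) × UnitAddTorus (Fin n) => rot p.2 p.1)
      ((volume.restrict Ω).prod volume) (volume.restrict Ω) := by
  have h1 : MeasurePreserving (fun p : UnitAddTorus (Fin n) × (Fin n → ℂ) => (p.1, rot p.1 p.2))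
      ((volume : Measure (UnitAddTorus (Fin n))).prod (volume.restrict Ω))
      ((volume : Measure (UnitAddTorus (Fin n))).prod (volume.restrict Ω)) := by
    refine (MeasurePreserving.id _).skew_product (g := rot) ?_ ?_
    · exact (continuous_rot.comp continuous_swap).measurable
    · exact ae_of_all _ fun t => (h.measurePreserving hm t).map_eq
  have h2 : MeasurePreserving (Prod.snd : UnitAddTorus (Fin n) × (Fin n → ℂ) → (Fin n → ℂ))
      ((volume : Measure (UnitAddTorus (Fin n))).prod (volume.restrict Ω)) (volume.restrict Ω) :=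
    measurePreserving_snd
  have h3 : MeasurePreserving (Prod.swap : (Fin n → ℂ) × UnitAddTorus (Fin n) → _)
      ((volume.restrict Ω).prod (volume : Measure (UnitAddTorus (Fin n))))
      ((volume : Measure (UnitAddTorus (Fin n))).prod (volume.restrict Ω)) :=
    Measure.measurePreserving_swap
  exact (h2.comp h1).comp h3

theorem mFourier_apply_add (γ : Fin n → ℤ) (s t : UnitAddTorus (Fin n)) :
    mFourier γ (s + t) = mFourier γ s * mFourier γ t := by
  simp only [mFourier, ContinuousMap.coe_mk, ← Finset.prod_mul_distrib]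
  refine Finset.prod_congr rfl fun i _ => ?_
  simp [fourier_apply, AddCircle.toCircle_add, smul_add]

theorem norm_mFourier_apply (γ : Fin n → ℤ) (t : UnitAddTorus (Fin n)) :
    ‖mFourier γ t‖ = 1 := by
  simp only [mFourier, ContinuousMap.coe_mk, norm_prod, fourier_apply, Circle.norm_coe,
    Finset.prod_const_one]

theorem mFourier_neg_mul (γ : Fin n → ℤ) (t : UnitAddTorus (Fin n)) :
    mFourier (-γ) t * mFourier γ t = 1 := by
  rw [← mFourier_add]
  simp [mFourier_zero]

/-- `u` transforms under the torus by the character with exponent `γ`. -/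
def HasWeight (Ω : Set (Fin n → ℂ)) (γ : Fin n → ℤ) (u : (Fin n → ℂ) → ℂ) : Prop :=
  ∀ z ∈ Ω, ∀ t : UnitAddTorus (Fin n), u (rot t z) = mFourier γ t * u z

/-- The weight-`γ` part of `u`: average of `u` over the torus against a character. -/
def wpart (γ : Fin n → ℤ) (u : (Fin n → ℂ) → ℂ) : (Fin n → ℂ) → ℂ :=
  fun z => ∫ t : UnitAddTorus (Fin n), mFourier (-γ) t * u (rot t z)

theorem hasWeight_wpart (Ω : Set (Fin n → ℂ)) (γ : Fin n → ℤ) (u : (Fin n → ℂ) → ℂ) :
    HasWeight Ω γ (wpart γ u) := by
  intro z _ s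
  unfold wpart
  have h1 : ∀ t : UnitAddTorus (Fin n), mFourier (-γ) t * u (rot t (rot s z)) =
      mFourier γ s * (mFourier (-γ) (t + s) * u (rot (t + s) z)) := by
    intro t
    rw [← rot_add, mFourier_apply_add]
    have := mFourier_neg_mul γ s
    calc mFourier (-γ) t * u (rot (t + s) z)
        = mFourier (-γ) t * (mFourier (-γ) s * mFourier γ s) * u (rot (t + s) z) := by
          rw [this]; ring
      _ = _ := by ring
  simp_rw [h1]
  rw [integral_const_mul]
  congr 1
  exact integral_add_right_eq_self (fun t => mFourier (-γ) t * u (rot t z)) s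

theorem wpart_of_hasWeight {Ω : Set (Fin n → ℂ)} {γ : Fin n → ℤ} {u : (Fin n → ℂ) → ℂ}
    (hu : HasWeight Ω γ u) {z : Fin n → ℂ} (hz : z ∈ Ω) : wpart γ u z = u z := by
  unfold wpart
  have : ∀ t : UnitAddTorus (Fin n), mFourier (-γ) t * u (rot t z) = u z := by
    intro t
    rw [hu z hz t, ← mul_assoc, mFourier_neg_mul, one_mul]
  simp_rw [this]
  simp

/-- Weight parts of a product with a weight function. -/
theorem wpart_mul {Ω : Set (Fin n → ℂ)} {γ β : Fin n → ℤ} {f u : (Fin n → ℂ) → ℂ}
    (hu : HasWeight Ω γ u) {z : Fin n → ℂ} (hz : z ∈ Ω) :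
    wpart (γ + β) (fun w => f w * u w) z = wpart β f z * u z := by
  unfold wpart
  have : ∀ t : UnitAddTorus (Fin n), mFourier (-(γ + β)) t * (f (rot t z) * u (rot t z)) =
      (mFourier (-β) t * f (rot t z)) * u z := by
    intro t
    rw [hu z hz t, neg_add, mFourier_add]
    have := mFourier_neg_mul γ t
    linear_combination (mFourier (-β) t * f (rot t z) * u z) * this
  simp_rw [this]
  rw [integral_mul_const]

/-- Weight parts of the product of a weight function with a conjugate. -/
theorem wpart_conj_mul {Ω : Set (Fin n → ℂ)} {γ β : Fin n → ℤ} {f u : (Fin n → ℂ) → ℂ}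
    (hu : HasWeight Ω γ u) {z : Fin n → ℂ} (hz : z ∈ Ω) :
    wpart (γ - β) (fun w => conj (f w) * u w) z = conj (wpart β f z) * u z := by
  unfold wpart
  have : ∀ t : UnitAddTorus (Fin n), mFourier (-(γ - β)) t * (conj (f (rot t z)) * u (rot t z)) =
      conj (mFourier (-β) t * f (rot t z)) * u z := by
    intro t
    rw [hu z hz t, map_mul, ← mFourier_neg, neg_neg]
    have h2 : mFourier (-(γ - β)) t = mFourier (-γ) t * mFourier β t := by
      rw [← mFourier_add]; congr 2; abel
    rw [h2]
    have := mFourier_neg_mul γ t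
    linear_combination (mFourier β t * conj (f (rot t z)) * u z) * this
  simp_rw [this]
  rw [integral_mul_const, integral_conj]

/-- Orbit maps are continuous for functions continuous on an invariant set. -/
theorem continuous_orbit {Ω : Set (Fin n → ℂ)} (hI : Inv Ω) {u : (Fin n → ℂ) → ℂ}
    (hu : ContinuousOn u Ω) {z : Fin n → ℂ} (hz : z ∈ Ω) :
    Continuous (fun t : UnitAddTorus (Fin n) => u (rot t z)) := by
  have h1 : Continuous (fun t : UnitAddTorus (Fin n) => rot t z) :=
    continuous_rot.comp (by fun_prop : Continuous fun t : UnitAddTorus (Fin n) => (z, t))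
  rw [← continuousOn_univ] at h1 ⊢
  exact hu.comp h1 (fun t _ => hI t z hz)

theorem wpart_sub {Ω : Set (Fin n → ℂ)} (hI : Inv Ω) {γ : Fin n → ℤ} {u v : (Fin n → ℂ) → ℂ}
    (hu : ContinuousOn u Ω) (hv : ContinuousOn v Ω) {z : Fin n → ℂ} (hz : z ∈ Ω) :
    wpart γ (fun w => u w - v w) z = wpart γ u z - wpart γ v z := by
  unfold wpart
  have hi : ∀ {w : (Fin n → ℂ) → ℂ}, ContinuousOn w Ω →
      Integrable (fun t : UnitAddTorus (Fin n) => mFourier (-γ) t * w (rot t z)) := by
    intro w hw
    have hc : Continuous (fun t : UnitAddTorus (Fin n) => mFourier (-γ) t * w (rot t z)) :=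
      (mFourier (-γ)).continuous.mul (continuous_orbit hI hw hz)
    exact hc.integrable_of_hasCompactSupport (HasCompactSupport.of_compactSpace _)
  rw [← integral_sub (hi hu) (hi hv)]
  refine integral_congr_ae (ae_of_all _ fun t => ?_)
  ring

theorem differentiableOn_wpart {Ω : Set (Fin n → ℂ)} (hI : Inv Ω) (hΩ : IsOpen Ω)
    (γ : Fin n → ℤ) {u : (Fin n → ℂ) → ℂ} (hu : DifferentiableOn ℂ u Ω) :
    DifferentiableOn ℂ (wpart γ u) Ω := by
  unfold wpart
  refine differentiableOn_integral volume hΩ
    (u := fun z (t : UnitAddTorus (Fin n)) => mFourier (-γ) t * u (rot t z)) ?_ ?_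
  · have h1 : ContinuousOn (fun p : (Fin n → ℂ) × UnitAddTorus (Fin n) => u (rot p.2 p.1))
        (Ω ×ˢ univ) := hu.continuousOn.comp continuous_rot.continuousOn
          (fun p hp => hI p.2 p.1 hp.1)
    have h2 : ContinuousOn (fun p : (Fin n → ℂ) × UnitAddTorus (Fin n) => mFourier (-γ) p.2)
        (Ω ×ˢ univ) := ((mFourier (-γ)).continuous.comp continuous_snd).continuousOn
    exact h2.mul h1
  · intro t
    exact (differentiableOn_const _).mul
      (hu.comp (differentiable_rot t).differentiableOn (fun z hz => hI t z hz))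

theorem aestronglyMeasurable_wpart {Ω : Set (Fin n → ℂ)} (hI : Inv Ω) (hm : MeasurableSet Ω)
    (γ : Fin n → ℤ) {u : (Fin n → ℂ) → ℂ} (hu : AEStronglyMeasurable u (volume.restrict Ω)) :
    AEStronglyMeasurable (wpart γ u) (volume.restrict Ω) := by
  unfold wpart
  have h1 : AEStronglyMeasurable
      (fun p : (Fin n → ℂ) × UnitAddTorus (Fin n) => mFourier (-γ) p.2 * u (rot p.2 p.1))
      ((volume.restrict Ω).prod volume) := by
    refine AEStronglyMeasurable.mul ?_ (hu.comp_measurePreserving (hI.measurePreserving_prod hm))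
    exact ((mFourier (-γ)).continuous.comp continuous_snd).aestronglyMeasurable
  exact h1.integral_prod_right'

/-- Averaging does not increase the `L²` norm. -/
theorem lintegral_wpart_le {Ω : Set (Fin n → ℂ)} (hI : Inv Ω) (hm : MeasurableSet Ω)
    (γ : Fin n → ℤ) {u : (Fin n → ℂ) → ℂ} (hu : AEStronglyMeasurable u (volume.restrict Ω)) :
    ∫⁻ z in Ω, ‖wpart γ u z‖ₑ ^ 2 ≤ ∫⁻ z in Ω, ‖u z‖ₑ ^ 2 := by
  have hΦ := hI.measurePreserving_prod hm
  have hmeas : AEStronglyMeasurable
      (fun p : (Fin n → ℂ) × UnitAddTorus (Fin n) => u (rot p.2 p.1))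
      ((volume.restrict Ω).prod volume) := hu.comp_measurePreserving hΦ
  have h1 : ∀ᵐ z ∂(volume.restrict Ω), ‖wpart γ u z‖ₑ ^ 2 ≤
      ∫⁻ t : UnitAddTorus (Fin n), ‖u (rot t z)‖ₑ ^ 2 := by
    filter_upwards [hmeas.prodMk_left] with z hz
    have h2 : ‖wpart γ u z‖ₑ ≤ ∫⁻ t : UnitAddTorus (Fin n), ‖u (rot t z)‖ₑ := by
      unfold wpart
      refine (enorm_integral_le_lintegral_enorm _).trans (le_of_eq ?_)
      refine lintegral_congr fun t => ?_
      rw [enorm_mul]
      have : ‖mFourier (-γ) t‖ₑ = 1 := by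
        rw [← ofReal_norm, norm_mFourier_apply]; simp
      rw [this, one_mul]
    have h3 : ∫⁻ t : UnitAddTorus (Fin n), ‖u (rot t z)‖ₑ ≤
        eLpNorm (fun t : UnitAddTorus (Fin n) => u (rot t z)) 2 volume := by
      rw [← eLpNorm_one_eq_lintegral_enorm]
      exact eLpNorm_le_eLpNorm_of_exponent_le (by norm_num) hz
    have h4 : eLpNorm (fun t : UnitAddTorus (Fin n) => u (rot t z)) 2 volume ^ 2 =
        ∫⁻ t : UnitAddTorus (Fin n), ‖u (rot t z)‖ₑ ^ 2 := by
      have := eLpNorm_nnreal_pow_eq_lintegral (f := fun t : UnitAddTorus (Fin n) => u (rot t z))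
        (μ := volume) (p := 2) (by norm_num)
      simpa using this
    rw [← h4]
    exact pow_le_pow_left' (h2.trans h3) 2
  refine (lintegral_mono_ae h1).trans (le_of_eq ?_)
  have h5 : AEMeasurable (fun p : (Fin n → ℂ) × UnitAddTorus (Fin n) => ‖u (rot p.2 p.1)‖ₑ ^ 2)
      ((volume.restrict Ω).prod volume) := hmeas.enorm.pow_const 2
  rw [← lintegral_prod _ h5]
  have h6 : AEMeasurable (fun z => ‖u z‖ₑ ^ 2) (volume.restrict Ω) := hu.enorm.pow_const 2
  conv_rhs => rw [← hΦ.map_eq]
  rw [lintegral_map' _ hΦ.measurable.aemeasurable]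
  rw [hΦ.map_eq]
  exact h6

/-- Pairing a weight part with a weight function. -/
theorem integral_wpart_mul {Ω : Set (Fin n → ℂ)} (hI : Inv Ω) (hm : MeasurableSet Ω)
    {γ : Fin n → ℤ} {u v : (Fin n → ℂ) → ℂ}
    (huv : Integrable (fun z => u z * conj (v z)) (volume.restrict Ω))
    (hv : HasWeight Ω γ v) :
    ∫ z in Ω, wpart γ u z * conj (v z) = ∫ z in Ω, u z * conj (v z) := by
  have hΦ := hI.measurePreserving_prod hm
  set w : (Fin n → ℂ) → ℂ := fun z => u z * conj (v z) with hw
  have h1 : ∫ z in Ω, w z = ∫ p : (Fin n → ℂ) × UnitAddTorus (Fin n), w (rot p.2 p.1)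
      ∂((volume.restrict Ω).prod volume) := by
    conv_lhs => rw [← hΦ.map_eq]
    rw [integral_map hΦ.measurable.aemeasurable]
    rw [hΦ.map_eq]
    exact huv.aestronglyMeasurable
  have h1' : Integrable (fun p : (Fin n → ℂ) × UnitAddTorus (Fin n) => w (rot p.2 p.1))
      ((volume.restrict Ω).prod volume) := hΦ.integrable_comp_of_integrable huv
  rw [h1, integral_prod _ h1']
  refine setIntegral_congr_fun hm fun z hz => ?_
  simp only [hw]
  have h2 : ∀ t : UnitAddTorus (Fin n), u (rot t z) * conj (v (rot t z)) =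
      mFourier (-γ) t * u (rot t z) * conj (v z) := by
    intro t
    rw [hv z hz t, map_mul, ← mFourier_neg]
    ring
  simp_rw [h2]
  rw [integral_mul_const]
  rfl

end Rot

end

end Pool.Agent.Helper76_Hankel
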